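import Mathlib

/-!
# A monotone modal logic with Craig interpolation and the Lyndon positivity property
but without Lyndon interpolation

The logic `Lam` is the set of formulas valid at all points of the following models. There are
points of three kinds. At a point of the third kind (`Pt.z`) every `◇φ` is true. The points of
the first kind `A_w` and of the second kind `B_w` are indexed by binary words `w`; `A_w` sees
`A_{w0}` and `B_w`, and `B_w` sees exactly `A_{w1}`. In addition `◇φ` is true at `A_w` when the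
set of points of the third kind that satisfy `φ` belongs to a family `T w`. Binary words are
ordered by in-order traversal (a dense linear order), so every set `a` has a cut
`v(a) = {w | a ∈ T w}`, and the condition `GoodT` says that `v(∅)` is empty, that `v(univ)` is
everything and that `a ⊆ b` implies that `v(a) = v(b)`, or `v(a)` is empty, or `v(b)` is
everything, or `v(b)` has exactly one element more than `v(a)`. On the Cantor set of all cuts the
latter relation is a closed partial order which is not a Priestley order: the clopen up-sets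
cannot distinguish it from the linear order. Its order is a complete lattice, which gives Craig
interpolation; the failure of Priestley separation separates the two Lyndon properties.
-/

namespace Pool.Agent.Results.MP_4e66c5_lc.CraigPositivityNotLyndon

open Set Filter

/-- Modal formulas in negation normal form: literals `p`, `¬p`, the constants `⊥`, `⊤`,
conjunction, disjunction, diamond and box. -/
inductive Fml where
  | pos (p : ℕ)
  | neg (p : ℕ)
  | bot
  | top
  | and (φ ψ : Fml)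
  | or (φ ψ : Fml)
  | dia (φ : Fml)
  | box (φ : Fml)

namespace Fml

/-- Negation, defined by the duality laws. -/
def not : Fml → Fml
  | pos p => neg p
  | neg p => pos p
  | bot => top
  | top => bot
  | and φ ψ => or φ.not ψ.not
  | or φ ψ => and φ.not ψ.not
  | dia φ => box φ.not
  | box φ => dia φ.not

/-- `φ → ψ` abbreviates `¬φ ∨ ψ`. -/
def imp (φ ψ : Fml) : Fml := or φ.not ψ

/-- `φ ↔ ψ`. -/
def iff (φ ψ : Fml) : Fml := and (imp φ ψ) (imp ψ φ)

/-- The variables occurring in a formula. -/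
def vars : Fml → Finset ℕ
  | pos p => {p}
  | neg p => {p}
  | bot => ∅
  | top => ∅
  | and φ ψ => φ.vars ∪ ψ.vars
  | or φ ψ => φ.vars ∪ ψ.vars
  | dia φ => φ.vars
  | box φ => φ.vars

/-- The literals occurring in a formula: `(p, true)` stands for `p`, `(p, false)` for `¬p`. -/
def lits : Fml → Finset (ℕ × Bool)
  | pos p => {(p, true)}
  | neg p => {(p, false)}
  | bot => ∅
  | top => ∅
  | and φ ψ => φ.lits ∪ ψ.lits
  | or φ ψ => φ.lits ∪ ψ.lits
  | dia φ => φ.lits
  | box φ => φ.lits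

/-- Uniform substitution. -/
def subst (σ : ℕ → Fml) : Fml → Fml
  | pos p => σ p
  | neg p => (σ p).not
  | bot => bot
  | top => top
  | and φ ψ => and (φ.subst σ) (ψ.subst σ)
  | or φ ψ => or (φ.subst σ) (ψ.subst σ)
  | dia φ => dia (φ.subst σ)
  | box φ => box (φ.subst σ)

end Fml

open Fml

/-- An assignment of truth values to all formulas that respects the classical connectives
(formulas beginning with a modality are treated as atoms, subject to the duality laws). -/
structure Respects (v : Fml → Prop) : Prop where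
  top : v .top
  bot : ¬ v .bot
  and : ∀ φ ψ, v (.and φ ψ) ↔ v φ ∧ v ψ
  or : ∀ φ ψ, v (.or φ ψ) ↔ v φ ∨ v ψ
  not : ∀ φ, v φ.not ↔ ¬ v φ

/-- Classical tautologies. -/
def Taut (φ : Fml) : Prop := ∀ v : Fml → Prop, Respects v → v φ

/-- Monotone modal logics. -/
structure IsMonotoneLogic (Λ : Set Fml) : Prop where
  taut : ∀ φ, Taut φ → φ ∈ Λ
  mono : ∀ p q : ℕ, imp (dia (pos p)) (dia (or (pos p) (pos q))) ∈ Λ
  mp : ∀ φ ψ, imp φ ψ ∈ Λ → φ ∈ Λ → ψ ∈ Λ
  subst : ∀ (σ : ℕ → Fml) (φ : Fml), φ ∈ Λ → φ.subst σ ∈ Λ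
  congr : ∀ φ ψ, Fml.iff φ ψ ∈ Λ → Fml.iff (dia φ) (dia ψ) ∈ Λ

/-- Positive formulas: no negated variable. -/
def Positive (φ : Fml) : Prop := ∀ p, (p, false) ∉ φ.lits

/-- `φ` is monotone in `Λ`: `φ(p⃗) → φ(p⃗ ∨ q⃗)` belongs to `Λ` for fresh variables `q⃗`. -/
def MonotoneIn (Λ : Set Fml) (φ : Fml) : Prop :=
  ∃ q : ℕ → ℕ, Function.Injective q ∧ (∀ p, q p ∉ φ.vars) ∧
    imp φ (φ.subst fun p => or (pos p) (pos (q p))) ∈ Λ

/-- Craig interpolation property. -/
def CIP (Λ : Set Fml) : Prop :=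
  ∀ φ ψ, imp φ ψ ∈ Λ → ∃ χ : Fml, χ.vars ⊆ φ.vars ∩ ψ.vars ∧ imp φ χ ∈ Λ ∧ imp χ ψ ∈ Λ

/-- Lyndon interpolation property. -/
def LIP (Λ : Set Fml) : Prop :=
  ∀ φ ψ, imp φ ψ ∈ Λ → ∃ χ : Fml, χ.lits ⊆ φ.lits ∩ ψ.lits ∧ imp φ χ ∈ Λ ∧ imp χ ψ ∈ Λ

/-- Lyndon positivity property. -/
def LPP (Λ : Set Fml) : Prop :=
  ∀ φ, MonotoneIn Λ φ → ∃ χ : Fml, Positive χ ∧ imp φ χ ∈ Λ ∧ imp χ φ ∈ Λ

/-! ## The in-order on binary words -/

/-- In-order traversal of the full binary tree. -/
def lt : List Bool → List Bool → Prop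
  | [], [] => False
  | [], b :: _ => b = true
  | a :: _, [] => a = false
  | a :: u, b :: v => (a = false ∧ b = true) ∨ (a = b ∧ lt u v)

theorem lt_irrefl : ∀ u, ¬ lt u u
  | [] => by simp [lt]
  | a :: u => by
    have := lt_irrefl u
    cases a <;> simp [lt, this]

theorem lt_trans : ∀ u v w, lt u v → lt v w → lt u w
  | [], [], w, h, _ => by simp [lt] at h
  | [], b :: v, [], h, h' => by
    simp [lt] at h h'
    rw [h] at h'; cases h'
  | [], b :: v, c :: w, h, h' => by
    simp [lt] at h h' ⊢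
    rcases h' with h' | h'
    · exact h'.2
    · rw [← h'.1]; exact h
  | a :: u, [], [], h, h' => by simp [lt] at h'
  | a :: u, [], c :: w, h, h' => by
    simp [lt] at h h' ⊢
    left; exact ⟨h, h'⟩
  | a :: u, b :: v, [], h, h' => by
    simp [lt] at h h' ⊢
    rcases h with h | h
    · exact h.1
    · rw [h.1]; exact h'
  | a :: u, b :: v, c :: w, h, h' => by
    simp only [lt] at h h' ⊢
    rcases h with ⟨h1, h2⟩ | ⟨h1, h2⟩
    · rcases h' with ⟨h3, h4⟩ | ⟨h3, h4⟩
      · rw [h2] at h3; cases h3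
      · left; exact ⟨h1, by rw [← h3]; exact h2⟩
    · rcases h' with ⟨h3, h4⟩ | ⟨h3, h4⟩
      · left; exact ⟨by rw [h1]; exact h3, h4⟩
      · right; exact ⟨h1.trans h3, lt_trans u v w h2 h4⟩

theorem lt_tri : ∀ u v, lt u v ∨ u = v ∨ lt v u
  | [], [] => by simp
  | [], b :: v => by cases b <;> simp [lt]
  | a :: u, [] => by cases a <;> simp [lt]
  | a :: u, b :: v => by
    rcases lt_tri u v with h | h | h
    · cases a <;> cases b <;> simp [lt, h]
    · cases a <;> cases b <;> simp [lt, h]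
    · cases a <;> cases b <;> simp [lt, h]

theorem lt_app_false : ∀ u : List Bool, lt (u ++ [false]) u
  | [] => by simp [lt]
  | a :: u => by simp [lt, lt_app_false u]

theorem lt_app_true : ∀ u : List Bool, lt u (u ++ [true])
  | [] => by simp [lt]
  | a :: u => by simp [lt, lt_app_true u]

theorem lt_dense : ∀ u v, lt u v → ∃ x, lt u x ∧ lt x v
  | [], [], h => by simp [lt] at h
  | [], b :: v, h => by
    simp only [lt] at h
    exact ⟨true :: (v ++ [false]), by simp [lt], by subst h; simp [lt, lt_app_false v]⟩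
  | a :: u, [], h => by
    simp only [lt] at h
    exact ⟨false :: (u ++ [true]), by subst h; simp [lt, lt_app_true u], by simp [lt]⟩
  | a :: u, b :: v, h => by
    simp only [lt] at h
    rcases h with ⟨h1, h2⟩ | ⟨h1, h2⟩
    · subst h1 h2
      exact ⟨[], by simp [lt], by simp [lt]⟩
    · obtain ⟨x, hx1, hx2⟩ := lt_dense u v h2
      subst h1
      exact ⟨a :: x, by simp [lt, hx1], by simp [lt, hx2]⟩

theorem lt_cons (b : Bool) {u v : List Bool} (h : lt u v) : lt (b :: u) (b :: v) := by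
  simp [lt, h]

/-! ## Models -/

/-- A model: valuations on the nodes of the first and second kind, and for every word `w` a
family of sets of points of the third kind. -/
structure Mod where
  cA : List Bool → ℕ → Prop
  cB : List Bool → ℕ → Prop
  T : List Bool → Set (ℕ → Prop) → Prop

/-- The conditions on the families of sets. -/
structure GoodT {Ω : Type} (T : List Bool → Set Ω → Prop) : Prop where
  up : ∀ w a b, a ⊆ b → T w a → T w b
  dn : ∀ w w' a, lt w w' → T w' a → T w a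
  emp : ∀ w, ¬ T w ∅
  full : ∀ w, T w univ
  four : ∀ a b, a ⊆ b → ∀ w0 w1 w2 w3, lt w0 w1 → lt w1 w2 → lt w2 w3 →
    T w0 a → ¬ T w1 a → T w2 b → T w3 b

def Mod.sh (M : Mod) (b : Bool) : Mod :=
  ⟨fun w => M.cA (b :: w), fun w => M.cB (b :: w), fun w => M.T (b :: w)⟩

def Mod.shs (M : Mod) (u : List Bool) : Mod :=
  ⟨fun w => M.cA (u ++ w), fun w => M.cB (u ++ w), fun w => M.T (u ++ w)⟩

theorem GoodT.sh {M : Mod} (h : GoodT M.T) (b : Bool) : GoodT (M.sh b).T where
  up w := h.up _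
  dn w w' a hl := h.dn _ _ a (lt_cons b hl)
  emp w := h.emp _
  full w := h.full _
  four a c hac w0 w1 w2 w3 h0 h1 h2 :=
    h.four a c hac _ _ _ _ (lt_cons b h0) (lt_cons b h1) (lt_cons b h2)

/-- Points of models: of the third kind, of the first kind, of the second kind. -/
inductive Pt where
  | z (v : ℕ → Prop)
  | a (M : Mod)
  | b (c : ℕ → Prop) (M : Mod)

def Pt.col : Pt → ℕ → Prop
  | .z v => v
  | .a M => M.cA []
  | .b c _ => c

def Pt.Good : Pt → Prop
  | .z _ => True
  | .a M => GoodT M.T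
  | .b _ M => GoodT M.T

def ev : Fml → Pt → Prop
  | .pos p, x => x.col p
  | .neg p, x => ¬ x.col p
  | .bot, _ => False
  | .top, _ => True
  | .and φ ψ, x => ev φ x ∧ ev ψ x
  | .or φ ψ, x => ev φ x ∨ ev ψ x
  | .dia _, .z _ => True
  | .dia φ, .a M =>
    ev φ (.a (M.sh false)) ∨ ev φ (.b (M.cB []) (M.sh true)) ∨ M.T [] {v | ev φ (.z v)}
  | .dia φ, .b _ M => ev φ (.a M)
  | .box _, .z _ => False
  | .box φ, .a M =>
    ev φ (.a (M.sh false)) ∧ ev φ (.b (M.cB []) (M.sh true)) ∧ ¬ M.T [] {v | ¬ ev φ (.z v)}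
  | .box φ, .b _ M => ev φ (.a M)

/-- The logic. -/
def Lam : Set Fml := {φ | ∀ x : Pt, x.Good → ev φ x}

theorem ev_not (φ : Fml) : ∀ x, ev φ.not x ↔ ¬ ev φ x := by
  induction φ with
  | pos p => intro x; simp [Fml.not, ev]
  | neg p => intro x; simp [Fml.not, ev]
  | bot => intro x; simp [Fml.not, ev]
  | top => intro x; simp [Fml.not, ev]
  | and φ ψ ih1 ih2 => intro x; simp only [Fml.not, ev, ih1, ih2]; tauto
  | or φ ψ ih1 ih2 => intro x; simp only [Fml.not, ev, ih1, ih2]; tauto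
  | dia φ ih =>
    intro x
    cases x with
    | z v => simp [Fml.not, ev]
    | a M => simp only [Fml.not, ev, ih, not_not]; tauto
    | b c M => simp only [Fml.not, ev, ih]
  | box φ ih =>
    intro x
    cases x with
    | z v => simp [Fml.not, ev]
    | a M => simp only [Fml.not, ev, ih]; tauto
    | b c M => simp only [Fml.not, ev, ih]

theorem ev_imp (φ ψ : Fml) (x : Pt) : ev (imp φ ψ) x ↔ (ev φ x → ev ψ x) := by
  simp only [imp, ev, ev_not]; tauto

theorem ev_iff (φ ψ : Fml) (x : Pt) : ev (Fml.iff φ ψ) x ↔ (ev φ x ↔ ev ψ x) := by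
  simp only [Fml.iff, ev, ev_imp]; tauto

theorem mem_imp {φ ψ : Fml} : imp φ ψ ∈ Lam ↔ ∀ x : Pt, x.Good → ev φ x → ev ψ x := by
  constructor
  · intro h x hx
    exact (ev_imp φ ψ x).1 (h x hx)
  · intro h x hx
    exact (ev_imp φ ψ x).2 (h x hx)

/-! ## Substitution -/

def Mod.sub (σ : ℕ → Fml) (M : Mod) : Mod where
  cA w p := ev (σ p) (.a (M.shs w))
  cB w p := ev (σ p) (.b (M.cB w) ((M.shs w).sh true))
  T w s := M.T w {v | (fun p => ev (σ p) (.z v)) ∈ s}

def Pt.sub (σ : ℕ → Fml) : Pt → Pt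
  | .z v => .z fun p => ev (σ p) (.z v)
  | .a M => .a (M.sub σ)
  | .b c M => .b (fun p => ev (σ p) (.b c M)) (M.sub σ)

theorem sub_sh (σ : ℕ → Fml) (M : Mod) (b : Bool) : (M.sub σ).sh b = (M.sh b).sub σ := rfl

theorem sub_good (σ : ℕ → Fml) {M : Mod} (h : GoodT M.T) : GoodT (M.sub σ).T where
  up w a b hab := h.up w _ _ fun v hv => hab hv
  dn w w' a hl := h.dn w w' _ hl
  emp w := h.emp w
  full w := h.full w
  four a b hab := h.four _ _ fun v hv => hab hv

theorem ptsub_good (σ : ℕ → Fml) {x : Pt} (h : x.Good) : (x.sub σ).Good := by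
  cases x with
  | z v => trivial
  | a M => exact sub_good σ h
  | b c M => exact sub_good σ h

theorem ev_subst (σ : ℕ → Fml) (φ : Fml) : ∀ x : Pt, ev (φ.subst σ) x ↔ ev φ (x.sub σ) := by
  induction φ with
  | pos p => intro x; cases x <;> rfl
  | neg p =>
    intro x
    simp only [Fml.subst, ev_not, ev]
    cases x <;> rfl
  | bot => intro x; simp [Fml.subst, ev]
  | top => intro x; simp [Fml.subst, ev]
  | and φ ψ ih1 ih2 => intro x; simp only [Fml.subst, ev, ih1, ih2]
  | or φ ψ ih1 ih2 => intro x; simp only [Fml.subst, ev, ih1, ih2]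
  | dia φ ih =>
    intro x
    cases x with
    | z v => simp [Fml.subst, ev, Pt.sub]
    | a M =>
      simp only [Fml.subst, ev, Pt.sub, ih, sub_sh]
      rfl
    | b c M => simp only [Fml.subst, ev, Pt.sub, ih]
  | box φ ih =>
    intro x
    cases x with
    | z v => simp [Fml.subst, ev, Pt.sub]
    | a M =>
      simp only [Fml.subst, ev, Pt.sub, ih, sub_sh]
      rfl
    | b c M => simp only [Fml.subst, ev, Pt.sub, ih]

theorem lam_monotone : IsMonotoneLogic Lam where
  taut φ h x _ := h (fun φ => ev φ x)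
    ⟨trivial, fun h => h, fun _ _ => Iff.rfl, fun _ _ => Iff.rfl, fun φ => ev_not φ x⟩
  mono p q := by
    rw [mem_imp]
    intro x hx
    cases x with
    | z v => simp [ev]
    | a M =>
      simp only [ev]
      rintro (h | h | h)
      · exact Or.inl (Or.inl h)
      · exact Or.inr (Or.inl (Or.inl h))
      · exact Or.inr (Or.inr (GoodT.up hx _ _ _ (fun v hv => Or.inl hv) h))
    | b c M =>
      simp only [ev]
      exact fun h => Or.inl h
  mp φ ψ h1 h2 x hx := (ev_imp φ ψ x).1 (h1 x hx) (h2 x hx)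
  subst σ φ h x hx := (ev_subst σ φ x).2 (h _ (ptsub_good σ hx))
  congr φ ψ h x hx := by
    rw [ev_iff]
    have h' : ∀ y : Pt, y.Good → (ev φ y ↔ ev ψ y) := fun y hy => (ev_iff φ ψ y).1 (h y hy)
    cases x with
    | z v => simp [ev]
    | a M =>
      have e : {v | ev φ (.z v)} = {v | ev ψ (.z v)} := by
        ext v; exact h' (.z v) trivial
      simp only [ev]
      rw [h' (.a (M.sh false)) (GoodT.sh hx false), h' (.b (M.cB []) (M.sh true)) (GoodT.sh hx true), e]
    | b c M => exact h' (.a M) hx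

/-! ## Ultrafilter limits and compactness -/

section limits

variable {ι : Type} (U : Ultrafilter ι)

def limc (v : ι → ℕ → Prop) : ℕ → Prop := fun p => ∀ᶠ i in (U : Filter ι), v i p

def Mod.lim (M : ι → Mod) : Mod where
  cA w p := ∀ᶠ i in (U : Filter ι), (M i).cA w p
  cB w p := ∀ᶠ i in (U : Filter ι), (M i).cB w p
  T w s := ∀ᶠ i in (U : Filter ι), (M i).T w s

theorem lim_good (M : ι → Mod) (h : ∀ᶠ i in (U : Filter ι), GoodT (M i).T) :
    GoodT (Mod.lim U M).T where
  up w a b hab h1 := by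
    filter_upwards [h, h1] with i hi h2
    exact hi.up w a b hab h2
  dn w w' a hl h1 := by
    filter_upwards [h, h1] with i hi h2
    exact hi.dn w w' a hl h2
  emp w h1 := by
    have : ∀ᶠ i in (U : Filter ι), False := by
      filter_upwards [h, h1] with i hi h2
      exact hi.emp w h2
    exact U.neBot.ne (by simpa using this)
  full w := by
    filter_upwards [h] with i hi
    exact hi.full w
  four a b hab w0 w1 w2 w3 h0 h1 h2 g0 g1 g2 := by
    have g1' : ∀ᶠ i in (U : Filter ι), ¬ (M i).T w1 a := Ultrafilter.eventually_not.2 g1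
    filter_upwards [h, g0, g1', g2] with i hi k0 k1 k2
    exact hi.four a b hab w0 w1 w2 w3 h0 h1 h2 k0 k1 k2

theorem los (φ : Fml) :
    (∀ v : ι → ℕ → Prop, ev φ (.z (limc U v)) ↔ ∀ᶠ i in (U : Filter ι), ev φ (.z (v i))) ∧
    (∀ M : ι → Mod, ev φ (.a (Mod.lim U M)) ↔ ∀ᶠ i in (U : Filter ι), ev φ (.a (M i))) ∧
    (∀ (c : ι → ℕ → Prop) (M : ι → Mod), ev φ (.b (limc U c) (Mod.lim U M)) ↔
      ∀ᶠ i in (U : Filter ι), ev φ (.b (c i) (M i))) := by
  have hsh : ∀ (M : ι → Mod) (b : Bool), (Mod.lim U M).sh b = Mod.lim U (fun i => (M i).sh b) :=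
    fun _ _ => rfl
  have hcB : ∀ (M : ι → Mod), (Mod.lim U M).cB [] = limc U (fun i => (M i).cB []) := fun _ => rfl
  have hT : ∀ (M : ι → Mod) (s : Set (ℕ → Prop)),
      (Mod.lim U M).T [] s ↔ ∀ᶠ i in (U : Filter ι), (M i).T [] s := fun _ _ => Iff.rfl
  induction φ with
  | pos p =>
    refine ⟨fun v => ?_, fun M => ?_, fun c M => ?_⟩ <;> simp only [ev] <;> exact Iff.rfl
  | neg p =>
    refine ⟨fun v => ?_, fun M => ?_, fun c M => ?_⟩ <;> simp only [ev] <;>
      rw [Ultrafilter.eventually_not] <;> exact Iff.rfl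
  | bot =>
    refine ⟨fun v => ?_, fun M => ?_, fun c M => ?_⟩ <;> simp [ev, U.neBot.ne]
  | top =>
    refine ⟨fun v => ?_, fun M => ?_, fun c M => ?_⟩ <;> simp [ev]
  | and φ ψ ih1 ih2 =>
    refine ⟨fun v => ?_, fun M => ?_, fun c M => ?_⟩
    · simp only [ev, ih1.1, ih2.1, Filter.eventually_and]
    · simp only [ev, ih1.2.1, ih2.2.1, Filter.eventually_and]
    · simp only [ev, ih1.2.2, ih2.2.2, Filter.eventually_and]
  | or φ ψ ih1 ih2 =>
    refine ⟨fun v => ?_, fun M => ?_, fun c M => ?_⟩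
    · simp only [ev, ih1.1, ih2.1, Ultrafilter.eventually_or]
    · simp only [ev, ih1.2.1, ih2.2.1, Ultrafilter.eventually_or]
    · simp only [ev, ih1.2.2, ih2.2.2, Ultrafilter.eventually_or]
  | dia φ ih =>
    refine ⟨fun v => ?_, fun M => ?_, fun c M => ?_⟩
    · simp [ev]
    · simp only [ev, hsh, hcB, hT, ih.2.1, ih.2.2, Ultrafilter.eventually_or]
    · simp only [ev, ih.2.1]
  | box φ ih =>
    refine ⟨fun v => ?_, fun M => ?_, fun c M => ?_⟩
    · simp [ev, U.neBot.ne]
    · simp only [ev, hsh, hcB, hT, ih.2.1, ih.2.2, Filter.eventually_and,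
        Ultrafilter.eventually_not]
    · simp only [ev, ih.2.1]

end limits

def Pt.mod : Pt → Mod
  | .z _ => ⟨fun _ _ => False, fun _ _ => False, fun _ _ => False⟩
  | .a M => M
  | .b _ M => M

/-- The logic is compact with respect to good points. -/
theorem compact (Γ : Set Fml)
    (h : ∀ Δ : Finset Fml, (∀ δ ∈ Δ, δ ∈ Γ) → ∃ x : Pt, x.Good ∧ ∀ δ ∈ Δ, ev δ x) :
    ∃ x : Pt, x.Good ∧ ∀ γ ∈ Γ, ev γ x := by
  classical
  have h' : ∀ Δ : Finset Fml, ∃ x : Pt, x.Good ∧ ∀ δ ∈ Δ, δ ∈ Γ → ev δ x := by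
    intro Δ
    obtain ⟨x, hx, hx2⟩ := h (Δ.filter (· ∈ Γ)) (fun δ hδ => (Finset.mem_filter.1 hδ).2)
    exact ⟨x, hx, fun δ h1 h2 => hx2 δ (Finset.mem_filter.2 ⟨h1, h2⟩)⟩
  choose f hf hf2 using h'
  let U : Ultrafilter (Finset Fml) := Ultrafilter.of atTop
  have hU : (U : Filter (Finset Fml)) ≤ atTop := Ultrafilter.of_le _
  have hmem : ∀ γ ∈ Γ, ∀ᶠ Δ in (U : Filter (Finset Fml)), ev γ (f Δ) := by
    intro γ hγ
    apply hU
    filter_upwards [eventually_ge_atTop ({γ} : Finset Fml)] with Δ hΔ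
    exact hf2 Δ γ (hΔ (Finset.mem_singleton_self γ)) hγ
  by_cases hz : ∀ᶠ Δ in (U : Filter (Finset Fml)), ∃ v, f Δ = .z v
  · refine ⟨.z (limc U fun Δ => (f Δ).col), trivial, fun γ hγ => ?_⟩
    rw [(los U γ).1]
    filter_upwards [hz, hmem γ hγ] with Δ h1 h2
    obtain ⟨v, hv⟩ := h1
    rw [hv] at h2 ⊢
    exact h2
  by_cases ha : ∀ᶠ Δ in (U : Filter (Finset Fml)), ∃ M, f Δ = .a M
  · refine ⟨.a (Mod.lim U fun Δ => (f Δ).mod), ?_, fun γ hγ => ?_⟩
    · apply lim_good
      filter_upwards [ha] with Δ h1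
      obtain ⟨M, hM⟩ := h1
      have := hf Δ
      rw [hM] at this ⊢
      exact this
    · rw [(los U γ).2.1]
      filter_upwards [ha, hmem γ hγ] with Δ h1 h2
      obtain ⟨v, hv⟩ := h1
      rw [hv] at h2 ⊢
      exact h2
  · have hb : ∀ᶠ Δ in (U : Filter (Finset Fml)), ∃ c M, f Δ = .b c M := by
      filter_upwards [Ultrafilter.eventually_not.2 hz, Ultrafilter.eventually_not.2 ha] with Δ h1 h2
      cases hx : f Δ with
      | z v => exact absurd ⟨v, hx⟩ h1
      | a M => exact absurd ⟨M, hx⟩ h2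
      | b c M => exact ⟨c, M, rfl⟩
    refine ⟨.b (limc U fun Δ => (f Δ).col) (Mod.lim U fun Δ => (f Δ).mod), ?_, fun γ hγ => ?_⟩
    · apply lim_good
      filter_upwards [hb] with Δ h1
      obtain ⟨c, M, hM⟩ := h1
      have := hf Δ
      rw [hM] at this ⊢
      exact this
    · rw [(los U γ).2.2]
      filter_upwards [hb, hmem γ hγ] with Δ h1 h2
      obtain ⟨c, M, hv⟩ := h1
      rw [hv] at h2 ⊢
      exact h2

/-! ## Reading off the data of a model from the formulas -/

def fal : Fml := and (box top) (dia (dia bot))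
def fbe : Fml := and (box top) (box (box top))

theorem fal_z (v : ℕ → Prop) : ¬ ev fal (.z v) := by simp [fal, ev]

theorem fal_a {M : Mod} (h : GoodT M.T) : ev fal (.a M) := by
  have h1 := h.emp []
  have h2 := h.full []
  simp only [fal, ev, not_true_eq_false, ofPred_false, true_and]
  refine ⟨h1, Or.inr (Or.inr ?_)⟩
  simpa using h2

theorem fal_b {c : ℕ → Prop} {M : Mod} (h : GoodT M.T) : ¬ ev fal (.b c M) := by
  have h1 := h.emp []
  simp only [fal, ev, false_or, ofPred_false, true_and]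
  exact h1

theorem fbe_z (v : ℕ → Prop) : ¬ ev fbe (.z v) := by simp [fbe, ev]

theorem fbe_a {M : Mod} (h : GoodT M.T) : ¬ ev fbe (.a M) := by
  have h2 := h.full []
  simp only [fbe, ev]
  intro h3
  apply h3.2.2.2
  simpa using h2

theorem fbe_b {c : ℕ → Prop} {M : Mod} (h : GoodT M.T) : ev fbe (.b c M) := by
  have h1 := h.emp []
  simp only [fbe, ev, not_true_eq_false, ofPred_false, true_and]
  exact h1

def callA (χ : Fml) : Fml := dia (and fal χ)
def callB (χ : Fml) : Fml := dia (and fbe χ)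

theorem ev_callA {M : Mod} (h : GoodT M.T) (χ : Fml) :
    ev (callA χ) (.a M) ↔ ev χ (.a (M.sh false)) := by
  have e : {v | ev (and fal χ) (.z v)} = ∅ := by
    ext v
    simp only [ev, Set.mem_ofPred_eq, mem_empty_iff_false, iff_false]
    exact fun h => fal_z v h.1
  have h0 := fal_a (GoodT.sh h false)
  have h1 := fal_b (c := M.cB []) (GoodT.sh h true)
  have h2 := h.emp []
  show (ev (and fal χ) (.a (M.sh false)) ∨ ev (and fal χ) (.b (M.cB []) (M.sh true)) ∨
    M.T [] {v | ev (and fal χ) (.z v)}) ↔ _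
  rw [e]
  simp only [ev]
  tauto

theorem ev_callB {M : Mod} (h : GoodT M.T) (χ : Fml) :
    ev (callB χ) (.a M) ↔ ev χ (.b (M.cB []) (M.sh true)) := by
  have e : {v | ev (and fbe χ) (.z v)} = ∅ := by
    ext v
    simp only [ev, Set.mem_ofPred_eq, mem_empty_iff_false, iff_false]
    exact fun h => fbe_z v h.1
  have h0 := fbe_a (GoodT.sh h false)
  have h1 := fbe_b (c := M.cB []) (GoodT.sh h true)
  have h2 := h.emp []
  show (ev (and fbe χ) (.a (M.sh false)) ∨ ev (and fbe χ) (.b (M.cB []) (M.sh true)) ∨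
    M.T [] {v | ev (and fbe χ) (.z v)}) ↔ _
  rw [e]
  simp only [ev]
  tauto

def ftest (θ : Fml) : Fml := dia (and (dia bot) θ)
def fdtest (θ : Fml) : Fml := box (or (box top) θ)

theorem ev_ftest {M : Mod} (h : GoodT M.T) (θ : Fml) :
    ev (ftest θ) (.a M) ↔ M.T [] {v | ev θ (.z v)} := by
  have h1 := (GoodT.sh h false).emp []
  have h2 := (GoodT.sh h true).emp []
  simp only [ftest, ev, false_or, ofPred_false, true_and]
  tauto

theorem ev_fdtest {M : Mod} (h : GoodT M.T) (θ : Fml) :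
    ev (fdtest θ) (.a M) ↔ ¬ M.T [] {v | ¬ ev θ (.z v)} := by
  have h1 := (GoodT.sh h false).emp []
  have h2 := (GoodT.sh h true).emp []
  simp only [fdtest, ev, false_or, ofPred_false, true_and, not_true_eq_false]
  tauto

/-- Evaluate `χ` at the node `w`. -/
def atw : List Bool → Fml → Fml
  | [], χ => χ
  | false :: w, χ => callA (atw w χ)
  | true :: w, χ => callB (dia (atw w χ))

theorem ev_atw (χ : Fml) : ∀ (w : List Bool) {M : Mod}, GoodT M.T →
    (ev (atw w χ) (.a M) ↔ ev χ (.a (M.shs w)))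
  | [], M, _ => Iff.rfl
  | false :: w, M, h => by
    rw [atw, ev_callA h, ev_atw χ w (GoodT.sh h false)]
    rfl
  | true :: w, M, h => by
    rw [atw, ev_callB h]
    show ev (atw w χ) (.a (M.sh true)) ↔ _
    rw [ev_atw χ w (GoodT.sh h true)]
    rfl

theorem shs_good {M : Mod} (h : GoodT M.T) : ∀ w : List Bool, GoodT (M.shs w).T := by
  intro w
  induction w generalizing M with
  | nil => exact h
  | cons b w ih => exact ih (GoodT.sh h b)

theorem ev_cA {M : Mod} (h : GoodT M.T) (w : List Bool) (p : ℕ) :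
    ev (atw w (pos p)) (.a M) ↔ M.cA w p := by
  rw [ev_atw _ w h]
  simp [ev, Pt.col, Mod.shs]

theorem ev_cB {M : Mod} (h : GoodT M.T) (w : List Bool) (p : ℕ) :
    ev (atw w (callB (pos p))) (.a M) ↔ M.cB w p := by
  rw [ev_atw _ w h, ev_callB (shs_good h w)]
  simp [ev, Pt.col, Mod.shs]

theorem ev_T {M : Mod} (h : GoodT M.T) (w : List Bool) (θ : Fml) :
    ev (atw w (ftest θ)) (.a M) ↔ M.T w {v | ev θ (.z v)} := by
  rw [ev_atw _ w h, ev_ftest (shs_good h w)]
  simp [Mod.shs]

theorem ev_dT {M : Mod} (h : GoodT M.T) (w : List Bool) (θ : Fml) :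
    ev (atw w (fdtest θ)) (.a M) ↔ ¬ M.T w {v | ¬ ev θ (.z v)} := by
  rw [ev_atw _ w h, ev_fdtest (shs_good h w)]
  simp [Mod.shs]

theorem vars_atw (χ : Fml) : ∀ w, (atw w χ).vars = χ.vars
  | [] => rfl
  | false :: w => by simp [atw, callA, fal, Fml.vars, vars_atw χ w]
  | true :: w => by simp [atw, callB, fbe, Fml.vars, vars_atw χ w]

theorem lits_atw (χ : Fml) : ∀ w, (atw w χ).lits = χ.lits
  | [] => rfl
  | false :: w => by simp [atw, callA, fal, Fml.lits, lits_atw χ w]
  | true :: w => by simp [atw, callB, fbe, Fml.lits, lits_atw χ w]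

/-! ## Measurable sets of valuations -/

/-- `a` depends only on the variables in `P`. -/
def Meas (P : Finset ℕ) (a : Set (ℕ → Prop)) : Prop :=
  ∀ v v' : ℕ → Prop, (∀ p ∈ P, (v p ↔ v' p)) → (v ∈ a ↔ v' ∈ a)

def UpSet (a : Set (ℕ → Prop)) : Prop :=
  ∀ v v' : ℕ → Prop, (∀ p, v p → v' p) → v ∈ a → v' ∈ a

theorem definable (P : Finset ℕ) : ∀ a : Set (ℕ → Prop), Meas P a →
    (∃ θ : Fml, θ.vars ⊆ P ∧ {v | ev θ (.z v)} = a) ∧
    (UpSet a → ∃ θ : Fml, Positive θ ∧ {v | ev θ (.z v)} = a) := by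
  classical
  induction P using Finset.induction_on with
  | empty =>
    intro a ha
    by_cases h : (fun _ => True) ∈ a
    · have e : a = univ := by
        ext v
        simp only [mem_univ, iff_true]
        exact (ha v (fun _ => True) (by simp)).2 h
      refine ⟨⟨top, by simp [Fml.vars], by simp [ev, e]⟩, fun _ => ⟨top, fun p => by simp [Fml.lits], by simp [ev, e]⟩⟩
    · have e : a = ∅ := by
        ext v
        simp only [mem_empty_iff_false, iff_false]
        exact fun hv => h ((ha v (fun _ => True) (by simp)).1 hv)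
      refine ⟨⟨bot, by simp [Fml.vars], by simp [ev, e]⟩, fun _ => ⟨bot, fun p => by simp [Fml.lits], by simp [ev, e]⟩⟩
  | insert p P hp ih =>
    intro a ha
    let a1 : Set (ℕ → Prop) := {v | Function.update v p True ∈ a}
    let a0 : Set (ℕ → Prop) := {v | Function.update v p False ∈ a}
    have hm : ∀ c : Prop, Meas P {v | Function.update v p c ∈ a} := by
      intro c v v' hv
      apply ha
      intro x hx
      by_cases hxp : x = p
      · subst hxp; simp
      · simp only [Function.update_of_ne hxp]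
        exact hv x (Finset.mem_of_mem_insert_of_ne hx hxp)
    obtain ⟨⟨θ1, h1, e1⟩, p1⟩ := ih a1 (hm True)
    obtain ⟨⟨θ0, h0, e0⟩, p0⟩ := ih a0 (hm False)
    have hu1 : ∀ v : ℕ → Prop, v p → (v ∈ a1 ↔ v ∈ a) := by
      intro v hv
      show Function.update v p True ∈ a ↔ v ∈ a
      have : Function.update v p True = v := by
        funext x
        by_cases hx : x = p
        · subst hx; simp [hv]
        · simp [Function.update_of_ne hx]
      rw [this]
    have hu0 : ∀ v : ℕ → Prop, ¬ v p → (v ∈ a0 ↔ v ∈ a) := by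
      intro v hv
      show Function.update v p False ∈ a ↔ v ∈ a
      have : Function.update v p False = v := by
        funext x
        by_cases hx : x = p
        · subst hx; simp [hv]
        · simp [Function.update_of_ne hx]
      rw [this]
    refine ⟨⟨or (and (pos p) θ1) (and (neg p) θ0), ?_, ?_⟩, fun hup => ?_⟩
    · intro x hx
      simp only [Fml.vars, Finset.mem_union, Finset.mem_singleton] at hx
      rw [Finset.mem_insert]
      rcases hx with (hx | hx) | (hx | hx)
      · exact Or.inl hx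
      · exact Or.inr (h1 hx)
      · exact Or.inl hx
      · exact Or.inr (h0 hx)
    · ext v
      have m1 : ev θ1 (.z v) ↔ v ∈ a1 := by rw [← e1]; exact Iff.rfl
      have m0 : ev θ0 (.z v) ↔ v ∈ a0 := by rw [← e0]; exact Iff.rfl
      simp only [ev, mem_ofPred_eq, Pt.col, m1, m0]
      by_cases hv : v p
      · simp only [hv, true_and, not_true_eq_false, false_and, or_false]; exact hu1 v hv
      · simp only [hv, false_and, not_false_eq_true, true_and, false_or]; exact hu0 v hv
    · have up : ∀ c : Prop, UpSet {v | Function.update v p c ∈ a} := by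
        intro c v v' hvv hv
        refine hup _ _ ?_ hv
        intro x
        by_cases hx : x = p
        · subst hx; simp
        · simp only [Function.update_of_ne hx]; exact hvv x
      obtain ⟨η1, g1, f1⟩ := p1 (up True)
      obtain ⟨η0, g0, f0⟩ := p0 (up False)
      refine ⟨or η0 (and (pos p) η1), ?_, ?_⟩
      · intro x hx
        simp only [Fml.lits, Finset.mem_union, Finset.mem_singleton, Prod.mk.injEq,
          Bool.false_eq_true, and_false, false_or] at hx
        rcases hx with hx | hx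
        · exact g0 x hx
        · exact g1 x hx
      · ext v
        have m1 : ev η1 (.z v) ↔ v ∈ a1 := by rw [← f1]; exact Iff.rfl
        have m0 : ev η0 (.z v) ↔ v ∈ a0 := by rw [← f0]; exact Iff.rfl
        simp only [ev, mem_ofPred_eq, Pt.col, m1, m0]
        by_cases hv : v p
        · simp only [hv, true_and]
          rw [hu1 v hv]
          constructor
          · rintro (h | h)
            · refine hup _ _ ?_ h
              intro x
              by_cases hx : x = p
              · subst hx; simp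
              · simp [Function.update_of_ne hx]
            · exact h
          · exact Or.inr
        · simp only [hv, false_and, or_false]
          exact hu0 v hv

/-! ## Truth depends only on the data over the variables of the formula -/

def AgM (X : Finset ℕ) (M N : Mod) : Prop :=
  (∀ w, ∀ p ∈ X, (M.cA w p ↔ N.cA w p)) ∧ (∀ w, ∀ p ∈ X, (M.cB w p ↔ N.cB w p)) ∧
    ∀ w a, Meas X a → (M.T w a ↔ N.T w a)

theorem AgM.sh {X : Finset ℕ} {M N : Mod} (h : AgM X M N) (b : Bool) :
    AgM X (M.sh b) (N.sh b) :=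
  ⟨fun w => h.1 _, fun w => h.2.1 _, fun w => h.2.2 _⟩

theorem AgM.refl (X : Finset ℕ) (M : Mod) : AgM X M M :=
  ⟨fun _ _ _ => Iff.rfl, fun _ _ _ => Iff.rfl, fun _ _ _ => Iff.rfl⟩

theorem AgM.symm {X : Finset ℕ} {M N : Mod} (h : AgM X M N) : AgM X N M :=
  ⟨fun w p hp => (h.1 w p hp).symm, fun w p hp => (h.2.1 w p hp).symm,
    fun w a ha => (h.2.2 w a ha).symm⟩

theorem ev_congr (X : Finset ℕ) (φ : Fml) : φ.vars ⊆ X →
    (∀ v v' : ℕ → Prop, (∀ p ∈ X, (v p ↔ v' p)) → (ev φ (.z v) ↔ ev φ (.z v'))) ∧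
    (∀ M N : Mod, AgM X M N → (ev φ (.a M) ↔ ev φ (.a N))) ∧
    (∀ (c c' : ℕ → Prop) (M N : Mod), (∀ p ∈ X, (c p ↔ c' p)) → AgM X M N →
      (ev φ (.b c M) ↔ ev φ (.b c' N))) := by
  induction φ with
  | pos p =>
    intro hX
    have hp : p ∈ X := hX (by simp [Fml.vars])
    exact ⟨fun v v' h => h p hp, fun M N h => h.1 [] p hp, fun c c' M N h _ => h p hp⟩
  | neg p =>
    intro hX
    have hp : p ∈ X := hX (by simp [Fml.vars])
    exact ⟨fun v v' h => not_congr (h p hp), fun M N h => not_congr (h.1 [] p hp),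
      fun c c' M N h _ => not_congr (h p hp)⟩
  | bot => intro _; exact ⟨fun _ _ _ => Iff.rfl, fun _ _ _ => Iff.rfl, fun _ _ _ _ _ _ => Iff.rfl⟩
  | top => intro _; exact ⟨fun _ _ _ => Iff.rfl, fun _ _ _ => Iff.rfl, fun _ _ _ _ _ _ => Iff.rfl⟩
  | and φ ψ ih1 ih2 =>
    intro hX
    have i1 := ih1 (fun x hx => hX (by simp [Fml.vars, hx]))
    have i2 := ih2 (fun x hx => hX (by simp [Fml.vars, hx]))
    exact ⟨fun v v' h => and_congr (i1.1 v v' h) (i2.1 v v' h),
      fun M N h => and_congr (i1.2.1 M N h) (i2.2.1 M N h),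
      fun c c' M N h h' => and_congr (i1.2.2 c c' M N h h') (i2.2.2 c c' M N h h')⟩
  | or φ ψ ih1 ih2 =>
    intro hX
    have i1 := ih1 (fun x hx => hX (by simp [Fml.vars, hx]))
    have i2 := ih2 (fun x hx => hX (by simp [Fml.vars, hx]))
    exact ⟨fun v v' h => or_congr (i1.1 v v' h) (i2.1 v v' h),
      fun M N h => or_congr (i1.2.1 M N h) (i2.2.1 M N h),
      fun c c' M N h h' => or_congr (i1.2.2 c c' M N h h') (i2.2.2 c c' M N h h')⟩
  | dia φ ih =>
    intro hX
    have i := ih hX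
    refine ⟨fun v v' _ => by simp [ev], fun M N h => ?_, fun c c' M N _ h => i.2.1 M N h⟩
    simp only [ev]
    rw [i.2.1 _ _ (h.sh false), i.2.2 _ _ _ _ (h.2.1 []) (h.sh true),
      h.2.2 [] {v | ev φ (.z v)} (fun v v' hv => i.1 v v' hv)]
  | box φ ih =>
    intro hX
    have i := ih hX
    refine ⟨fun v v' _ => by simp [ev], fun M N h => ?_, fun c c' M N _ h => i.2.1 M N h⟩
    simp only [ev]
    rw [i.2.1 _ _ (h.sh false), i.2.2 _ _ _ _ (h.2.1 []) (h.sh true),
      h.2.2 [] {v | ¬ ev φ (.z v)} (fun v v' hv => not_congr (i.1 v v' hv))]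

/-! ## Gluing -/

/-- The order relation on cuts: the second cut contains the first one, and if the first one is
nonempty and the second one is not everything, then they differ in at most one element. -/
def Rel (s t : List Bool → Prop) : Prop :=
  (∀ w, s w → t w) ∧ ∀ w0 w1 w2 w3, lt w0 w1 → lt w1 w2 → lt w2 w3 → s w0 → ¬ s w1 → t w2 → t w3

def Down (s : List Bool → Prop) : Prop := ∀ w w', lt w w' → s w' → s w

theorem GoodT.rel {Ω : Type} {T : List Bool → Set Ω → Prop} (h : GoodT T) {a b : Set Ω}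
    (hab : a ⊆ b) : Rel (fun w => T w a) (fun w => T w b) :=
  ⟨fun w => h.up w a b hab, fun w0 w1 w2 w3 h0 h1 h2 => h.four a b hab w0 w1 w2 w3 h0 h1 h2⟩

theorem GoodT.down {Ω : Type} {T : List Bool → Set Ω → Prop} (h : GoodT T) (a : Set Ω) :
    Down (fun w => T w a) := fun w w' hl => h.dn w w' a hl

theorem Rel.trans {s t u : List Bool → Prop} (h1 : Rel s t) (h2 : Rel t u) (hu : Down u) :
    Rel s u := by
  refine ⟨fun w hw => h2.1 w (h1.1 w hw), ?_⟩
  intro w0 w1 w2 w3 l0 l1 l2 g0 g1 g2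
  obtain ⟨x, hx1, hx2⟩ := lt_dense w1 w2 l1
  by_cases hx : t x
  · exact h2.1 w3 (h1.2 w0 w1 x w3 l0 hx1 (lt_trans _ _ _ hx2 l2) g0 g1 hx)
  · exact h2.2 w0 x w2 w3 (lt_trans _ _ _ l0 hx1) hx2 l2 (h1.1 w0 g0) hx g2

theorem Rel.refl_of {Ω : Type} {T : List Bool → Set Ω → Prop} (h : GoodT T) (a : Set Ω) :
    Rel (fun w => T w a) (fun w => T w a) := h.rel (Subset.refl a)

/-- Gluing lemma. -/
theorem glue {Ω J : Type} (S : J → Set Ω) (v : J → List Bool → Prop)
    (hdn : ∀ j, Down (v j)) (hrel : ∀ j k, S j ⊆ S k → Rel (v j) (v k))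
    (hemp : ∀ j, S j = ∅ → ∀ w, ¬ v j w) (hfull : ∃ j, S j = univ ∧ ∀ w, v j w) :
    ∃ T : List Bool → Set Ω → Prop, GoodT T ∧ ∀ j w, T w (S j) ↔ v j w := by
  let Inc : J → J → Prop := fun j k => ∃ w0 w1 w2 w3, lt w0 w1 ∧ lt w1 w2 ∧ lt w2 w3 ∧
    v j w0 ∧ ¬ v j w1 ∧ v k w2 ∧ ¬ v k w3
  refine ⟨fun w a => (∃ j, S j ⊆ a ∧ v j w) ∨ ∃ j k, S j ⊆ a ∧ S k ⊆ a ∧ Inc j k, ?_, ?_⟩
  · refine ⟨?_, ?_, ?_, ?_, ?_⟩
    · rintro w a b hab (⟨j, h1, h2⟩ | ⟨j, k, h1, h2, h3⟩)
      · exact Or.inl ⟨j, h1.trans hab, h2⟩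
      · exact Or.inr ⟨j, k, h1.trans hab, h2.trans hab, h3⟩
    · rintro w w' a hl (⟨j, h1, h2⟩ | ⟨j, k, h1, h2, h3⟩)
      · exact Or.inl ⟨j, h1, hdn j w w' hl h2⟩
      · exact Or.inr ⟨j, k, h1, h2, h3⟩
    · rintro w (⟨j, h1, h2⟩ | ⟨j, k, h1, h2, w0, w1, w2, w3, -, -, -, g, -⟩)
      · exact hemp j (subset_eq_empty h1 rfl) w h2
      · exact hemp j (subset_eq_empty h1 rfl) w0 g
    · intro w
      obtain ⟨j, h1, h2⟩ := hfull
      exact Or.inl ⟨j, subset_univ _, h2 w⟩
    · rintro a b hab w0 w1 w2 w3 l0 l1 l2 g0 g1 g2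
      rcases g0 with ⟨j, h1, h2⟩ | g0
      · have h3 : ¬ v j w1 := fun h => g1 (Or.inl ⟨j, h1, h⟩)
        rcases g2 with ⟨k, h4, h5⟩ | g2
        · by_cases h6 : v k w3
          · exact Or.inl ⟨k, h4, h6⟩
          · exact Or.inr ⟨j, k, h1.trans hab, h4, w0, w1, w2, w3, l0, l1, l2, h2, h3, h5, h6⟩
        · exact Or.inr g2
      · exact absurd (Or.inr g0) g1
  · intro j w
    constructor
    · rintro (⟨i, h1, h2⟩ | ⟨i, k, h1, h2, w0, w1, w2, w3, l0, l1, l2, g0, g1, g2, g3⟩)
      · exact (hrel i j h1).1 w h2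
      · have hi := hrel i j h1
        have hk := hrel k j h2
        have m2 : v j w2 := hk.1 w2 g2
        rcases lt_tri w w2 with h | h | h
        · exact hdn j w w2 h m2
        · rw [h]; exact m2
        · exact hi.2 w0 w1 w2 w l0 l1 h g0 g1 m2
    · intro h
      exact Or.inl ⟨j, Subset.refl _, h⟩

/-! ## Craig interpolation -/

def conj : List Fml → Fml
  | [] => top
  | φ :: l => and φ (conj l)

def disj : List Fml → Fml
  | [] => bot
  | φ :: l => or φ (disj l)

theorem ev_conj (l : List Fml) (x : Pt) : ev (conj l) x ↔ ∀ φ ∈ l, ev φ x := by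
  induction l with
  | nil => simp [conj, ev]
  | cons φ l ih => simp [conj, ev, ih]

theorem ev_disj (l : List Fml) (x : Pt) : ev (disj l) x ↔ ∃ φ ∈ l, ev φ x := by
  induction l with
  | nil => simp [disj, ev]
  | cons φ l ih => simp [disj, ev, ih]

theorem vars_conj {P : Finset ℕ} (l : List Fml) (h : ∀ φ ∈ l, φ.vars ⊆ P) :
    (conj l).vars ⊆ P := by
  induction l with
  | nil => simp [conj, Fml.vars]
  | cons φ l ih =>
    simp only [conj, Fml.vars]
    exact Finset.union_subset (h φ (by simp)) (ih fun ψ hψ => h ψ (by simp [hψ]))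

theorem positive_conj (l : List Fml) (h : ∀ φ ∈ l, Positive φ) : Positive (conj l) := by
  induction l with
  | nil => intro p; simp [conj, Fml.lits]
  | cons φ l ih =>
    intro p hp
    simp only [conj, Fml.lits, Finset.mem_union] at hp
    rcases hp with hp | hp
    · exact h φ (by simp) p hp
    · exact ih (fun ψ hψ => h ψ (by simp [hψ])) p hp

theorem positive_disj (l : List Fml) (h : ∀ φ ∈ l, Positive φ) : Positive (disj l) := by
  induction l with
  | nil => intro p; simp [disj, Fml.lits]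
  | cons φ l ih =>
    intro p hp
    simp only [disj, Fml.lits, Finset.mem_union] at hp
    rcases hp with hp | hp
    · exact h φ (by simp) p hp
    · exact ih (fun ψ hψ => h ψ (by simp [hψ])) p hp

theorem vars_not (φ : Fml) : φ.not.vars = φ.vars := by
  induction φ <;> simp_all [Fml.not, Fml.vars]

theorem agm_of_theory (P : Finset ℕ) {M N : Mod} (hM : GoodT M.T) (hN : GoodT N.T)
    (h : ∀ χ : Fml, χ.vars ⊆ P → (ev χ (.a M) ↔ ev χ (.a N))) : AgM P M N := by
  refine ⟨fun w p hp => ?_, fun w p hp => ?_, fun w a ha => ?_⟩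
  · rw [← ev_cA hM, ← ev_cA hN]
    exact h _ (by rw [vars_atw]; simpa [Fml.vars] using hp)
  · rw [← ev_cB hM, ← ev_cB hN]
    exact h _ (by rw [vars_atw]; simpa [Fml.vars, callB, fbe] using hp)
  · obtain ⟨⟨θ, h1, h2⟩, -⟩ := definable P a ha
    rw [← h2, ← ev_T hM, ← ev_T hN]
    exact h _ (by rw [vars_atw]; simpa [Fml.vars, ftest] using h1)

theorem meas_empty (P : Finset ℕ) : Meas P ∅ := fun _ _ _ => by simp
theorem meas_univ (P : Finset ℕ) : Meas P univ := fun _ _ _ => by simp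

theorem amalg (X Y : Finset ℕ) {M N : Mod} (hM : GoodT M.T) (hN : GoodT N.T)
    (h : AgM (X ∩ Y) M N) : ∃ K : Mod, GoodT K.T ∧ AgM X K M ∧ AgM Y K N := by
  classical
  let S : {a // Meas X a} ⊕ {a // Meas Y a} → Set (ℕ → Prop) :=
    Sum.elim (fun a => a.1) (fun a => a.1)
  let v : {a // Meas X a} ⊕ {a // Meas Y a} → List Bool → Prop :=
    Sum.elim (fun a w => M.T w a.1) (fun a w => N.T w a.1)
  have hdn : ∀ j, Down (v j) := by
    rintro (a | a)
    · exact hM.down a.1
    · exact hN.down a.1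
  have hrel : ∀ j k, S j ⊆ S k → Rel (v j) (v k) := by
    rintro (⟨a, ha⟩ | ⟨a, ha⟩) (⟨b, hb⟩ | ⟨b, hb⟩) hab
    · exact hM.rel hab
    · let e : Set (ℕ → Prop) := {z | ∃ z' ∈ a, ∀ p ∈ X ∩ Y, (z p ↔ z' p)}
      have he : Meas (X ∩ Y) e := by
        intro z1 z2 hz
        constructor
        · rintro ⟨z', h1, h2⟩
          exact ⟨z', h1, fun p hp => (hz p hp).symm.trans (h2 p hp)⟩
        · rintro ⟨z', h1, h2⟩
          exact ⟨z', h1, fun p hp => (hz p hp).trans (h2 p hp)⟩
      have hae : a ⊆ e := fun z hz => ⟨z, hz, fun p _ => Iff.rfl⟩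
      have heb : e ⊆ b := by
        rintro z ⟨z', h1, h2⟩
        let z'' : ℕ → Prop := fun p => if p ∈ X then z' p else z p
        have h3 : z'' ∈ a := (ha z'' z' (fun p hp => by simp [z'', hp])).2 h1
        refine (hb z'' z (fun p hp => ?_)).1 (hab h3)
        by_cases hpX : p ∈ X
        · simp only [z'', hpX, if_true]
          exact (h2 p (Finset.mem_inter.2 ⟨hpX, hp⟩)).symm
        · simp [z'', hpX]
      have e1 : (fun w => M.T w e) = (fun w => N.T w e) := by
        funext w; exact propext (h.2.2 w e he)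
      have r1 := hM.rel hae
      rw [e1] at r1
      exact r1.trans (hN.rel heb) (hN.down b)
    · let e : Set (ℕ → Prop) := {z | ∃ z' ∈ a, ∀ p ∈ X ∩ Y, (z p ↔ z' p)}
      have he : Meas (X ∩ Y) e := by
        intro z1 z2 hz
        constructor
        · rintro ⟨z', h1, h2⟩
          exact ⟨z', h1, fun p hp => (hz p hp).symm.trans (h2 p hp)⟩
        · rintro ⟨z', h1, h2⟩
          exact ⟨z', h1, fun p hp => (hz p hp).trans (h2 p hp)⟩
      have hae : a ⊆ e := fun z hz => ⟨z, hz, fun p _ => Iff.rfl⟩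
      have heb : e ⊆ b := by
        rintro z ⟨z', h1, h2⟩
        let z'' : ℕ → Prop := fun p => if p ∈ Y then z' p else z p
        have h3 : z'' ∈ a := (ha z'' z' (fun p hp => by simp [z'', hp])).2 h1
        refine (hb z'' z (fun p hp => ?_)).1 (hab h3)
        by_cases hpY : p ∈ Y
        · simp only [z'', hpY, if_true]
          exact (h2 p (Finset.mem_inter.2 ⟨hp, hpY⟩)).symm
        · simp [z'', hpY]
      have e1 : (fun w => N.T w e) = (fun w => M.T w e) := by
        funext w; exact propext (h.2.2 w e he).symm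
      have r1 := hN.rel hae
      rw [e1] at r1
      exact r1.trans (hM.rel heb) (hM.down b)
    · exact hN.rel hab
  have hemp : ∀ j, S j = ∅ → ∀ w, ¬ v j w := by
    rintro (⟨a, ha⟩ | ⟨a, ha⟩) hj w
    · have : a = ∅ := hj
      subst this
      exact hM.emp w
    · have : a = ∅ := hj
      subst this
      exact hN.emp w
  have hfull : ∃ j, S j = univ ∧ ∀ w, v j w :=
    ⟨Sum.inl ⟨univ, meas_univ X⟩, rfl, fun w => hM.full w⟩
  obtain ⟨T, hT, hT2⟩ := glue S v hdn hrel hemp hfull
  refine ⟨⟨fun w p => if p ∈ X then M.cA w p else N.cA w p,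
    fun w p => if p ∈ X then M.cB w p else N.cB w p, T⟩, hT, ⟨?_, ?_, ?_⟩, ⟨?_, ?_, ?_⟩⟩
  · intro w p hp
    simp [hp]
  · intro w p hp
    simp [hp]
  · intro w a ha
    exact hT2 (Sum.inl ⟨a, ha⟩) w
  · intro w p hp
    by_cases hX : p ∈ X
    · simp only [hX, if_true]
      exact h.1 w p (Finset.mem_inter.2 ⟨hX, hp⟩)
    · simp [hX]
  · intro w p hp
    by_cases hX : p ∈ X
    · simp only [hX, if_true]
      exact h.2.1 w p (Finset.mem_inter.2 ⟨hX, hp⟩)
    · simp [hX]
  · intro w a ha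
    exact hT2 (Sum.inr ⟨a, ha⟩) w

theorem lam_cip : CIP Lam := by
  classical
  intro φ ψ hφψ
  by_contra hno
  push Not at hno
  set P := φ.vars ∩ ψ.vars with hP
  -- a point where all consequences of `φ` over the common variables hold but `ψ` fails
  obtain ⟨y, hy, hy2⟩ := compact ({χ | χ.vars ⊆ P ∧ imp φ χ ∈ Lam} ∪ {ψ.not}) (by
    intro Δ hΔ
    let l := (Δ.filter fun χ => χ.vars ⊆ P ∧ imp φ χ ∈ Lam).toList
    have hl : ∀ χ ∈ l, χ.vars ⊆ P ∧ imp φ χ ∈ Lam := by
      intro χ hχ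
      exact (Finset.mem_filter.1 (Finset.mem_toList.1 hχ)).2
    have h1 : imp φ (conj l) ∈ Lam := by
      rw [mem_imp]
      intro x hx hφ
      rw [ev_conj]
      intro χ hχ
      exact mem_imp.1 (hl χ hχ).2 x hx hφ
    have h2 := hno (conj l) (vars_conj l fun χ hχ => (hl χ hχ).1) h1
    rw [mem_imp] at h2
    push Not at h2
    obtain ⟨x, hx, h3, h4⟩ := h2
    refine ⟨x, hx, fun δ hδ => ?_⟩
    rcases hΔ δ hδ with h5 | h5
    · exact (ev_conj l x).1 h3 δ (Finset.mem_toList.2 (Finset.mem_filter.2 ⟨hδ, h5⟩))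
    · rw [h5]; exact (ev_not ψ x).2 h4)
  have hyψ : ¬ ev ψ y := (ev_not ψ y).1 (hy2 _ (Or.inr rfl))
  obtain ⟨x, hx, hx2⟩ := compact ({χ | χ.vars ⊆ P ∧ ev χ y} ∪ {φ}) (by
    intro Δ hΔ
    let l := (Δ.filter fun χ => χ.vars ⊆ P ∧ ev χ y).toList
    have hl : ∀ χ ∈ l, χ.vars ⊆ P ∧ ev χ y := by
      intro χ hχ
      exact (Finset.mem_filter.1 (Finset.mem_toList.1 hχ)).2
    by_contra hcon
    push Not at hcon
    have h1 : imp φ (conj l).not ∈ Lam := by
      rw [mem_imp]
      intro x hx hφ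
      rw [ev_not]
      intro hc
      obtain ⟨δ, hδ, hδ2⟩ := hcon x hx
      rcases hΔ δ hδ with h5 | h5
      · exact hδ2 ((ev_conj l x).1 hc δ (Finset.mem_toList.2 (Finset.mem_filter.2 ⟨hδ, h5⟩)))
      · rw [h5] at hδ2; exact hδ2 hφ
    have h2 := hy2 (conj l).not (Or.inl ⟨by rw [vars_not]; exact vars_conj l fun χ hχ => (hl χ hχ).1, h1⟩)
    rw [ev_not] at h2
    exact h2 ((ev_conj l y).2 fun χ hχ => (hl χ hχ).2))
  have hxφ : ev φ x := hx2 _ (Or.inr rfl)
  have hxy : ∀ χ : Fml, χ.vars ⊆ P → (ev χ x ↔ ev χ y) := by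
    intro χ hχ
    constructor
    · intro h
      by_contra h'
      have := hx2 χ.not (Or.inl ⟨by rw [vars_not]; exact hχ, (ev_not χ y).2 h'⟩)
      exact (ev_not χ x).1 this h
    · intro h
      exact hx2 χ (Or.inl ⟨hχ, h⟩)
  have hfal : fal.vars ⊆ P := by simp [fal, Fml.vars]
  have hfbe : fbe.vars ⊆ P := by simp [fbe, Fml.vars]
  rw [mem_imp] at hφψ
  cases x with
  | z v =>
    cases y with
    | z v' =>
      let u : ℕ → Prop := fun p => if p ∈ φ.vars then v p else v' p
      have h1 : ev φ (.z u) :=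
        ((ev_congr φ.vars φ (Finset.Subset.refl _)).1 u v (fun p hp => by simp [u, hp])).2 hxφ
      have h2 : ¬ ev ψ (.z u) := by
        rw [(ev_congr ψ.vars ψ (Finset.Subset.refl _)).1 u v' (fun p hp => ?_)]
        · exact hyψ
        · by_cases hp' : p ∈ φ.vars
          · simp only [u, hp', if_true]
            exact hxy (pos p) (by simp [Fml.vars, hP, hp, hp'])
          · simp [u, hp']
      exact h2 (hφψ _ trivial h1)
    | a N => exact fal_z v ((hxy _ hfal).2 (fal_a hy))
    | b c N => exact fbe_z v ((hxy _ hfbe).2 (fbe_b hy))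
  | a M =>
    cases y with
    | z v => exact fal_z v ((hxy _ hfal).1 (fal_a hx))
    | a N =>
      obtain ⟨K, hK, h1, h2⟩ := amalg φ.vars ψ.vars hx hy (agm_of_theory _ hx hy hxy)
      have h3 := ((ev_congr φ.vars φ (Finset.Subset.refl _)).2.1 K M h1).2 hxφ
      have h4 : ¬ ev ψ (.a K) := by
        rw [(ev_congr ψ.vars ψ (Finset.Subset.refl _)).2.1 K N h2]; exact hyψ
      exact h4 (hφψ _ hK h3)
    | b c N => exact fal_b hy ((hxy _ hfal).1 (fal_a hx))
  | b c M =>
    cases y with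
    | z v => exact fbe_z v ((hxy _ hfbe).1 (fbe_b hx))
    | a N => exact fbe_a hy ((hxy _ hfbe).1 (fbe_b hx))
    | b c' N =>
      obtain ⟨K, hK, h1, h2⟩ := amalg φ.vars ψ.vars hx hy
        (agm_of_theory _ hx hy fun χ hχ => hxy (dia χ) hχ)
      let u : ℕ → Prop := fun p => if p ∈ φ.vars then c p else c' p
      have h3 := ((ev_congr φ.vars φ (Finset.Subset.refl _)).2.2 u c K M
        (fun p hp => by simp [u, hp]) h1).2 hxφ
      have h4 : ¬ ev ψ (.b u K) := by
        rw [(ev_congr ψ.vars ψ (Finset.Subset.refl _)).2.2 u c' K N (fun p hp => ?_) h2]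
        · exact hyψ
        · by_cases hp' : p ∈ φ.vars
          · simp only [u, hp', if_true]
            exact hxy (pos p) (by simp [Fml.vars, hP, hp, hp'])
          · simp [u, hp']
      exact h4 (hφψ _ hK h3)

/-! ## Failure of Lyndon interpolation -/

/-- The simple good families. -/
def tT (z0 : ℕ → Prop) (s : List Bool) : List Bool → Set (ℕ → Prop) → Prop :=
  fun w a => a = univ ∨ (z0 ∈ a ∧ lt w s)

theorem tT_good (z0 : ℕ → Prop) (s : List Bool) : GoodT (tT z0 s) where
  up := by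
    rintro w a b hab (h | h)
    · exact Or.inl (univ_subset_iff.1 (h ▸ hab))
    · exact Or.inr ⟨hab h.1, h.2⟩
  dn := by
    rintro w w' a hl (h | h)
    · exact Or.inl h
    · exact Or.inr ⟨h.1, lt_trans _ _ _ hl h.2⟩
  emp := by
    rintro w (h | h)
    · have : z0 ∈ (∅ : Set (ℕ → Prop)) := h ▸ mem_univ z0
      exact this
    · exact h.1
  full w := Or.inl rfl
  four := by
    rintro a b hab w0 w1 w2 w3 l0 l1 l2 g0 g1 (g2 | g2)
    · exact Or.inl g2
    · exfalso
      apply g1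
      rcases g0 with g0 | g0
      · exact Or.inl g0
      · exact Or.inr ⟨g0.1, lt_trans _ _ _ l1 g2.2⟩

theorem pos_transfer {z0 : ℕ → Prop} (hz0 : z0 0) (c : List Bool → ℕ → Prop) (χ : Fml) (hχ : χ.lits ⊆ {(0, true)}) :
    ({v | ev χ (.z v)} = ∅ ∨ {v | ev χ (.z v)} = {v | v 0} ∨ {v | ev χ (.z v)} = univ) ∧
    ∀ (s s' : List Bool), lt s s' → ∀ u : List Bool,
      (ev χ (.a ⟨fun w => c (u ++ w), fun w => c (u ++ w), fun w => tT z0 s (u ++ w)⟩) →
        ev χ (.a ⟨fun w => c (u ++ w), fun w => c (u ++ w), fun w => tT z0 s' (u ++ w)⟩)) ∧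
      ∀ d : ℕ → Prop,
      (ev χ (.b d ⟨fun w => c (u ++ w), fun w => c (u ++ w), fun w => tT z0 s (u ++ w)⟩) →
        ev χ (.b d ⟨fun w => c (u ++ w), fun w => c (u ++ w), fun w => tT z0 s' (u ++ w)⟩)) := by
  have hshA : ∀ (s : List Bool) (u : List Bool) (b : Bool),
      (⟨fun w => c (u ++ w), fun w => c (u ++ w), fun w => tT z0 s (u ++ w)⟩ : Mod).sh b =
        ⟨fun w => c ((u ++ [b]) ++ w), fun w => c ((u ++ [b]) ++ w), fun w => tT z0 s ((u ++ [b]) ++ w)⟩ := by
    intro s u b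
    simp [Mod.sh]
  induction χ with
  | pos p =>
    have hp : p = 0 := by
      have := hχ (show (p, true) ∈ (pos p).lits by simp [Fml.lits])
      simpa using this
    subst hp
    refine ⟨Or.inr (Or.inl ?_), fun s s' _ u => ⟨fun h => h, fun d h => h⟩⟩
    ext v; simp [ev, Pt.col]
  | neg p =>
    exfalso
    have := hχ (show (p, false) ∈ (neg p).lits by simp [Fml.lits])
    simp at this
  | bot => exact ⟨Or.inl (by simp [ev]), fun s s' _ u => ⟨fun h => h, fun d h => h⟩⟩
  | top => exact ⟨Or.inr (Or.inr (by simp [ev])), fun s s' _ u => ⟨fun h => h, fun d h => h⟩⟩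
  | and φ ψ ih1 ih2 =>
    have i1 := ih1 (fun x hx => hχ (by simp [Fml.lits, hx]))
    have i2 := ih2 (fun x hx => hχ (by simp [Fml.lits, hx]))
    refine ⟨?_, fun s s' hs u => ⟨fun h => ⟨((i1.2 s s' hs u).1) h.1, ((i2.2 s s' hs u).1) h.2⟩,
      fun d h => ⟨((i1.2 s s' hs u).2 d) h.1, ((i2.2 s s' hs u).2 d) h.2⟩⟩⟩
    have e : {v | ev (and φ ψ) (.z v)} = {v | ev φ (.z v)} ∩ {v | ev ψ (.z v)} := rfl
    rw [e]
    rcases i1.1 with h | h | h <;> rcases i2.1 with h' | h' | h' <;> rw [h, h'] <;> simp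
  | or φ ψ ih1 ih2 =>
    have i1 := ih1 (fun x hx => hχ (by simp [Fml.lits, hx]))
    have i2 := ih2 (fun x hx => hχ (by simp [Fml.lits, hx]))
    refine ⟨?_, fun s s' hs u => ⟨fun h => Or.imp ((i1.2 s s' hs u).1) ((i2.2 s s' hs u).1) h,
      fun d h => Or.imp ((i1.2 s s' hs u).2 d) ((i2.2 s s' hs u).2 d) h⟩⟩
    have e : {v | ev (or φ ψ) (.z v)} = {v | ev φ (.z v)} ∪ {v | ev ψ (.z v)} := rfl
    rw [e]
    rcases i1.1 with h | h | h <;> rcases i2.1 with h' | h' | h' <;> rw [h, h'] <;> simp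
  | dia φ ih =>
    have i := ih hχ
    refine ⟨Or.inr (Or.inr (by simp [ev])), fun s s' hs u => ⟨?_, fun d h => (i.2 s s' hs u).1 h⟩⟩
    simp only [ev]
    rw [hshA, hshA, hshA, hshA]
    rintro (h | h | h)
    · exact Or.inl ((i.2 s s' hs _).1 h)
    · exact Or.inr (Or.inl ((i.2 s s' hs _).2 _ h))
    · refine Or.inr (Or.inr ?_)
      rcases h with h | h
      · exact Or.inl h
      · exact Or.inr ⟨h.1, lt_trans _ _ _ h.2 hs⟩
  | box φ ih =>
    have i := ih hχ
    refine ⟨Or.inl (by simp [ev]), fun s s' hs u => ⟨?_, fun d h => (i.2 s s' hs u).1 h⟩⟩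
    simp only [ev]
    rw [hshA, hshA, hshA, hshA]
    rintro ⟨h1, h2, h3⟩
    refine ⟨(i.2 s s' hs _).1 h1, (i.2 s s' hs _).2 _ h2, ?_⟩
    rintro (h | h)
    · exact h3 (Or.inl h)
    · apply h3
      have e : {v | ¬ ev φ (.z v)} = {v | ev φ (.z v)}ᶜ := rfl
      rcases i.1 with h' | h' | h'
      · left
        rw [e, h']; simp
      · exfalso
        have h4 : z0 ∈ {v | ev φ (.z v)}ᶜ := h.1
        rw [h'] at h4
        exact h4 hz0
      · exfalso
        have h4 : z0 ∈ {v | ev φ (.z v)}ᶜ := h.1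
        rw [h'] at h4
        exact h4 (mem_univ _)

theorem lam_not_lip : ¬ LIP Lam := by
  intro hlip
  -- the thresholds `[false] < [] < [true] < [true, true]`
  let φ : Fml := and (and fal (atw [false] (ftest (and (pos 0) (pos 1)))))
    (fdtest (neg 1))
  let ψ : Fml := or (atw [true] (ftest (pos 0))).not (atw [true, true] (ftest (pos 0)))
  have l0 : lt [false] [] := by simp [lt]
  have l1 : lt [] [true] := by simp [lt]
  have l2 : lt [true] [true, true] := by simp [lt]
  have hval : imp φ ψ ∈ Lam := by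
    rw [mem_imp]
    intro x hx hφ
    cases x with
    | z v => exact absurd hφ.1.1 (fal_z v)
    | b c M => exact absurd hφ.1.1 (fal_b hx)
    | a M =>
      obtain ⟨⟨-, h1⟩, h2⟩ := hφ
      rw [ev_T hx] at h1
      rw [ev_fdtest hx] at h2
      simp only [ψ, ev, ev_not]
      rw [ev_T hx, ev_T hx]
      by_contra hcon
      push Not at hcon
      refine hcon.2 (GoodT.four hx {v | ev (and (pos 0) (pos 1)) (.z v)} {v | ev (pos 0) (.z v)}
        (fun v hv => hv.1) _ _ _ _ l0 l1 l2 h1 (fun h3 => h2 ?_) hcon.1)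
      refine GoodT.up hx _ _ _ (fun v hv => ?_) h3
      intro h4
      exact h4 hv.2
  obtain ⟨χ, h1, h2, h3⟩ := hlip φ ψ hval
  have hlits : χ.lits ⊆ {(0, true)} := by
    refine h1.trans ?_
    decide
  let c : List Bool → ℕ → Prop := fun _ _ => False
  let z0 : ℕ → Prop := fun _ => True
  let M : Mod := ⟨c, c, tT z0 []⟩
  let N : Mod := ⟨c, c, tT z0 [true, true]⟩
  have hM : GoodT M.T := tT_good z0 []
  have hN : GoodT N.T := tT_good z0 [true, true]
  have hne : ∀ p : ℕ, ¬ ({v : ℕ → Prop | v p} = univ) := by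
    intro p h
    have : (fun _ => False : ℕ → Prop) ∈ {v : ℕ → Prop | v p} := h ▸ mem_univ _
    exact this
  have hMφ : ev φ (.a M) := by
    refine ⟨⟨fal_a hM, ?_⟩, ?_⟩
    · rw [ev_T hM]
      exact Or.inr ⟨⟨trivial, trivial⟩, l0⟩
    · rw [ev_fdtest hM]
      rintro (h | h)
      · apply hne 1
        rw [← h]
        ext v
        simp [ev, Pt.col]
      · exact lt_irrefl _ h.2
  have hNψ : ¬ ev ψ (.a N) := by
    simp only [ψ, ev, ev_not]
    rw [ev_T hN, ev_T hN]
    rintro (h | h)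
    · exact h (Or.inr ⟨trivial, l2⟩)
    · rcases h with h | h
      · exact hne 0 h
      · exact lt_irrefl _ h.2
  have hMχ : ev χ (.a M) := mem_imp.1 h2 _ hM hMφ
  have hNχ : ev χ (.a N) :=
    ((pos_transfer (z0 := z0) trivial c χ hlits).2 [] [true, true] (by simp [lt]) []).1 hMχ
  exact hNψ (mem_imp.1 h3 _ hN hNχ)

/-! ## The positivity property -/

def DnSet (a : Set (ℕ → Prop)) : Prop :=
  ∀ v v' : ℕ → Prop, (∀ p, v p → v' p) → v' ∈ a → v ∈ a

/-- Points of the first two kinds. -/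
def pt : Bool → (ℕ → Prop) → Mod → Pt
  | false, _, M => .a M
  | true, c, M => .b c M

theorem pt_good (s : Bool) (c : ℕ → Prop) {M : Mod} (h : GoodT M.T) : (pt s c M).Good := by
  cases s <;> exact h

theorem pt_congr (s : Bool) (φ : Fml) {c c' : ℕ → Prop} {M N : Mod}
    (hc : ∀ p ∈ φ.vars, (c p ↔ c' p)) (h : AgM φ.vars M N) :
    ev φ (pt s c M) ↔ ev φ (pt s c' N) := by
  cases s
  · exact (ev_congr φ.vars φ (Finset.Subset.refl _)).2.1 M N h
  · exact (ev_congr φ.vars φ (Finset.Subset.refl _)).2.2 c c' M N hc h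

theorem pt_los {ι : Type} (U : Ultrafilter ι) (s : Bool) (φ : Fml) (c : ι → ℕ → Prop)
    (M : ι → Mod) : ev φ (pt s (limc U c) (Mod.lim U M)) ↔
      ∀ᶠ i in (U : Filter ι), ev φ (pt s (c i) (M i)) := by
  cases s
  · exact (los U φ).2.1 M
  · exact (los U φ).2.2 c M

/-- Monotone formulas are preserved when the data change within the order relation. -/
theorem rmove {φ : Fml} (hφ : MonotoneIn Lam φ) (s : Bool) {c c' : ℕ → Prop} {M M' : Mod}
    (hM : GoodT M.T) (hM' : GoodT M'.T) (hc : ∀ p ∈ φ.vars, c p → c' p)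
    (hcA : ∀ w, ∀ p ∈ φ.vars, M.cA w p → M'.cA w p)
    (hcB : ∀ w, ∀ p ∈ φ.vars, M.cB w p → M'.cB w p)
    (hup : ∀ a, Meas φ.vars a → UpSet a → Rel (fun w => M.T w a) (fun w => M'.T w a))
    (hdn : ∀ a, Meas φ.vars a → DnSet a → Rel (fun w => M'.T w a) (fun w => M.T w a)) :
    ev φ (pt s c M) → ev φ (pt s c' M') := by
  classical
  obtain ⟨q, hq, hqv, himp⟩ := hφ
  set P := φ.vars with hP
  let mk : (ℕ → Prop) → (ℕ → Prop) → ℕ → Prop :=
    fun z y x => if x ∈ P then z x else ∃ p ∈ P, q p = x ∧ y p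
  have mk1 : ∀ z y, ∀ p ∈ P, (mk z y p ↔ z p) := by
    intro z y p hp; simp [mk, hp]
  have mk2 : ∀ z y, ∀ p ∈ P, (mk z y (q p) ↔ y p) := by
    intro z y p hp
    simp only [mk, hqv p, if_false]
    constructor
    · rintro ⟨p', _, h2, h3⟩
      rw [hq h2] at h3; exact h3
    · intro h; exact ⟨p, hp, rfl, h⟩
  let X := {a : Set (ℕ → Prop) // Meas P a}
  let S : X ⊕ X → Set (ℕ → Prop) :=
    Sum.elim (fun a => a.1) (fun b => {z | (fun p => z p ∨ z (q p)) ∈ b.1})
  let v : X ⊕ X → List Bool → Prop :=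
    Sum.elim (fun a w => M.T w a.1) (fun b w => M'.T w b.1)
  have hv : ∀ j, Down (v j) := by
    rintro (a | a)
    · exact hM.down a.1
    · exact hM'.down a.1
  have hrel : ∀ j k, S j ⊆ S k → Rel (v j) (v k) := by
    rintro (⟨a, ha⟩ | ⟨a, ha⟩) (⟨b, hb⟩ | ⟨b, hb⟩) hab
    · exact hM.rel hab
    · -- first kind inside second kind
      let h : Set (ℕ → Prop) := {y | ∃ z ∈ a, ∀ p ∈ P, z p → y p}
      have hm : Meas P h := by
        intro y1 y2 hy
        constructor
        · rintro ⟨z, h1, h2⟩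
          exact ⟨z, h1, fun p hp hz => (hy p hp).1 (h2 p hp hz)⟩
        · rintro ⟨z, h1, h2⟩
          exact ⟨z, h1, fun p hp hz => (hy p hp).2 (h2 p hp hz)⟩
      have hu : UpSet h := by
        rintro y1 y2 hy ⟨z, h1, h2⟩
        exact ⟨z, h1, fun p hp hz => hy p (h2 p hp hz)⟩
      have hah : a ⊆ h := fun z hz => ⟨z, hz, fun p _ h => h⟩
      have hhb : h ⊆ b := by
        rintro y ⟨z, h1, h2⟩
        have h3 : mk z y ∈ a := (ha _ z (fun p hp => mk1 z y p hp)).2 h1
        have h4 := hab h3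
        refine (hb _ y (fun p hp => ?_)).1 h4
        show (mk z y p ∨ mk z y (q p)) ↔ y p
        rw [mk1 z y p hp, mk2 z y p hp]
        exact ⟨fun h => h.elim (h2 p hp) id, Or.inr⟩
      exact ((hM.rel hah).trans (hup h hm hu) (hM'.down h)).trans (hM'.rel hhb) (hM'.down b)
    · -- second kind inside first kind
      let k : Set (ℕ → Prop) := {z | ∃ y ∈ a, ∀ p ∈ P, z p → y p}
      have hm : Meas P k := by
        intro y1 y2 hy
        constructor
        · rintro ⟨z, h1, h2⟩
          exact ⟨z, h1, fun p hp hz => h2 p hp ((hy p hp).2 hz)⟩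
        · rintro ⟨z, h1, h2⟩
          exact ⟨z, h1, fun p hp hz => h2 p hp ((hy p hp).1 hz)⟩
      have hu : DnSet k := by
        rintro y1 y2 hy ⟨z, h1, h2⟩
        exact ⟨z, h1, fun p hp hz => h2 p hp (hy p hz)⟩
      have hak : a ⊆ k := fun z hz => ⟨z, hz, fun p _ h => h⟩
      have hkb : k ⊆ b := by
        rintro z ⟨y, h1, h2⟩
        have h3 : mk z y ∈ S (Sum.inr ⟨a, ha⟩) := by
          show (fun p => mk z y p ∨ mk z y (q p)) ∈ a
          refine (ha _ y (fun p hp => ?_)).2 h1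
          rw [mk1 z y p hp, mk2 z y p hp]
          exact ⟨fun h => h.elim (h2 p hp) id, Or.inr⟩
        exact (hb _ z (fun p hp => mk1 z y p hp)).1 (hab h3)
      exact ((hM'.rel hak).trans (hdn k hm hu) (hM.down k)).trans (hM.rel hkb) (hM.down b)
    · have hab' : a ⊆ b := by
        intro y hy
        have h3 : mk y y ∈ S (Sum.inr ⟨a, ha⟩) := by
          show (fun p => mk y y p ∨ mk y y (q p)) ∈ a
          refine (ha _ y (fun p hp => ?_)).2 hy
          rw [mk1 y y p hp, mk2 y y p hp]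
          exact or_self_iff
        have h4 := hab h3
        refine (hb _ y (fun p hp => ?_)).1 h4
        show (mk y y p ∨ mk y y (q p)) ↔ y p
        rw [mk1 y y p hp, mk2 y y p hp]
        exact or_self_iff
      exact hM'.rel hab'
  have hemp : ∀ j, S j = ∅ → ∀ w, ¬ v j w := by
    rintro (⟨a, ha⟩ | ⟨a, ha⟩) hj w
    · have : a = ∅ := hj
      subst this
      exact hM.emp w
    · have : a = ∅ := by
        rw [eq_empty_iff_forall_notMem]
        intro y hy
        have h3 : mk y y ∈ S (Sum.inr ⟨a, ha⟩) := by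
          show (fun p => mk y y p ∨ mk y y (q p)) ∈ a
          refine (ha _ y (fun p hp => ?_)).2 hy
          rw [mk1 y y p hp, mk2 y y p hp]
          exact or_self_iff
        rw [hj] at h3
        exact h3
      subst this
      exact hM'.emp w
  have hfull : ∃ j, S j = univ ∧ ∀ w, v j w :=
    ⟨Sum.inl ⟨univ, meas_univ P⟩, rfl, fun w => hM.full w⟩
  obtain ⟨T, hT, hT2⟩ := glue S v hv hrel hemp hfull
  let K : Mod := ⟨fun w => mk (M.cA w) (M'.cA w), fun w => mk (M.cB w) (M'.cB w), T⟩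
  have hK : GoodT K.T := hT
  have ag1 : AgM P K M :=
    ⟨fun w p hp => mk1 _ _ p hp, fun w p hp => mk1 _ _ p hp, fun w a ha => hT2 (Sum.inl ⟨a, ha⟩) w⟩
  have hor : ∀ (z y : ℕ → Prop), ∀ p ∈ P, (z p → y p) → ((mk z y p ∨ mk z y (q p)) ↔ y p) := by
    intro z y p hp hzy
    rw [mk1 z y p hp, mk2 z y p hp]
    exact ⟨fun h => h.elim hzy id, Or.inr⟩
  have ag2 : AgM P (K.sub fun p => or (pos p) (pos (q p))) M' := by
    refine ⟨fun w p hp => ?_, fun w p hp => ?_, fun w a ha => ?_⟩
    · show (K.cA (w ++ []) p ∨ K.cA (w ++ []) (q p)) ↔ _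
      rw [List.append_nil]
      exact hor _ _ p hp (hcA w p hp)
    · show (K.cB w p ∨ K.cB w (q p)) ↔ _
      exact hor _ _ p hp (hcB w p hp)
    · exact hT2 (Sum.inr ⟨a, ha⟩) w
  intro h0
  have h1 : ev φ (pt s (mk c c') K) := (pt_congr s φ (fun p hp => mk1 _ _ p hp) ag1).2 h0
  have h2 := mem_imp.1 himp _ (pt_good s (mk c c') hK) h1
  rw [ev_subst] at h2
  cases s with
  | false => exact (pt_congr false φ (c := c') (c' := c') (fun p _ => Iff.rfl) ag2).1 h2
  | true =>
    refine (pt_congr true φ (c := fun p => ev (or (pos p) (pos (q p))) (.b (mk c c') K))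
      (c' := c') (fun p hp => ?_) ag2).1 h2
    exact hor c c' p hp (hc p hp)

theorem exists_max (G : Finset (List Bool)) : G.Nonempty → ∃ q ∈ G, ∀ x ∈ G, lt x q ∨ x = q := by
  classical
  induction G using Finset.induction_on with
  | empty => intro h; simp at h
  | insert a G _ ih =>
    intro _
    by_cases hG : G.Nonempty
    · obtain ⟨q, hq, hq2⟩ := ih hG
      rcases lt_tri a q with h | h | h
      · refine ⟨q, by simp [hq], fun x hx => ?_⟩
        rcases Finset.mem_insert.1 hx with hx | hx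
        · subst hx; exact Or.inl h
        · exact hq2 x hx
      · refine ⟨q, by simp [hq], fun x hx => ?_⟩
        rcases Finset.mem_insert.1 hx with hx | hx
        · subst hx; exact Or.inr h
        · exact hq2 x hx
      · refine ⟨a, by simp, fun x hx => ?_⟩
        rcases Finset.mem_insert.1 hx with hx | hx
        · exact Or.inr hx
        · rcases hq2 x hx with h' | h'
          · exact Or.inl (lt_trans _ _ _ h' h)
          · subst h'; exact Or.inl h
    · rw [Finset.not_nonempty_iff_eq_empty] at hG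
      subst hG
      exact ⟨a, by simp, fun x hx => by simpa using Or.inr hx⟩

/-- Order preserving assignments of cuts to a family of sets. -/
structure OK {Ω X : Type} (S : X → Set Ω) (v : X → List Bool → Prop) : Prop where
  dn : ∀ j, Down (v j)
  rel : ∀ j k, S j ⊆ S k → Rel (v j) (v k)
  emp : ∀ j, S j = ∅ → ∀ w, ¬ v j w
  full : ∀ j, S j = univ → ∀ w, v j w

theorem path {Ω X : Type} (S : X → Set Ω) (Ψ : (X → List Bool → Prop) → Prop)
    (F : Finset (List Bool))
    (ha : ∀ v v', OK S v → OK S v' → (∀ j, ∀ w ∈ F, (v j w ↔ v' j w)) → Ψ v → Ψ v')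
    (hb : ∀ v v', OK S v → OK S v' → (∀ j, Rel (v j) (v' j)) → Ψ v → Ψ v')
    {v v' : X → List Bool → Prop} (hv : OK S v) (hv' : OK S v')
    (hle : ∀ j w, v j w → v' j w) : Ψ v → Ψ v' := by
  classical
  have rr : ∀ {v : X → List Bool → Prop}, OK S v → ∀ j, Rel (v j) (v j) :=
    fun h j => h.rel j j (Subset.refl _)
  -- make the two assignments agree on where they are trivial
  let v1 : X → List Bool → Prop := fun j w => v j w ∨ ∀ x, v' j x
  let v2 : X → List Bool → Prop := fun j w => v' j w ∧ ((∃ x, v j x) ∨ ∀ x, v' j x)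
  have ok1 : OK S v1 := by
    refine ⟨?_, ?_, ?_, ?_⟩
    · rintro j w w' hl (h | h)
      · exact Or.inl (hv.dn j w w' hl h)
      · exact Or.inr h
    · intro j k hjk
      by_cases hk : ∀ x, v' k x
      · exact ⟨fun w _ => Or.inr hk, fun _ _ _ _ _ _ _ _ _ _ => Or.inr hk⟩
      · have hj : ¬ ∀ x, v' j x := fun h => hk fun x => (hv'.rel j k hjk).1 x (h x)
        have e1 : v1 j = v j := by funext w; simp [v1, hj]
        have e2 : v1 k = v k := by funext w; simp [v1, hk]
        rw [e1, e2]; exact hv.rel j k hjk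
    · rintro j hj w (h | h)
      · exact hv.emp j hj w h
      · exact hv'.emp j hj w (h w)
    · intro j hj w
      exact Or.inl (hv.full j hj w)
  have ok2 : OK S v2 := by
    refine ⟨?_, ?_, ?_, ?_⟩
    · rintro j w w' hl ⟨h, h'⟩
      exact ⟨hv'.dn j w w' hl h, h'⟩
    · intro j k hjk
      by_cases hj : (∃ x, v j x) ∨ ∀ x, v' j x
      · have hk : (∃ x, v k x) ∨ ∀ x, v' k x := by
          rcases hj with ⟨x, hx⟩ | hx
          · exact Or.inl ⟨x, (hv.rel j k hjk).1 x hx⟩
          · exact Or.inr fun x => (hv'.rel j k hjk).1 x (hx x)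
        have e1 : v2 j = v' j := by funext w; simp only [v2, hj, and_true]
        have e2 : v2 k = v' k := by funext w; simp only [v2, hk, and_true]
        rw [e1, e2]; exact hv'.rel j k hjk
      · exact ⟨fun w h => absurd h.2 hj, fun _ _ _ _ _ _ _ h => absurd h.2 hj⟩
    · rintro j hj w ⟨h, -⟩
      exact hv'.emp j hj w h
    · intro j hj w
      exact ⟨hv'.full j hj w, Or.inr (hv'.full j hj)⟩
  have r1 : ∀ j, Rel (v j) (v1 j) := by
    intro j
    by_cases hj : ∀ x, v' j x
    · exact ⟨fun w _ => Or.inr hj, fun _ _ _ _ _ _ _ _ _ _ => Or.inr hj⟩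
    · have e1 : v1 j = v j := by funext w; simp [v1, hj]
      rw [e1]; exact rr hv j
  have r2 : ∀ j, Rel (v2 j) (v' j) := by
    intro j
    by_cases hj : (∃ x, v j x) ∨ ∀ x, v' j x
    · have e1 : v2 j = v' j := by funext w; simp only [v2, hj, and_true]
      rw [e1]; exact rr hv' j
    · exact ⟨fun w h => absurd h.2 hj, fun _ _ _ _ _ _ _ h => absurd h.2 hj⟩
  have le12 : ∀ j w, v1 j w → v2 j w := by
    rintro j w (h | h)
    · exact ⟨hle j w h, Or.inl ⟨w, h⟩⟩
    · exact ⟨h w, Or.inr h⟩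
  have hbot : ∀ j, (∃ x, v2 j x) → ∃ x, v1 j x := by
    rintro j ⟨x, h1, ⟨y, hy⟩ | h2⟩
    · exact ⟨y, Or.inl hy⟩
    · exact ⟨x, Or.inr h2⟩
  have htop : ∀ j, (∀ x, v2 j x) → ∀ x, v1 j x := by
    intro j h x
    exact Or.inr fun y => (h y).1
  -- the path
  let vt : (List Bool → Prop) → X → List Bool → Prop := fun t j w => (v1 j w ∨ t w) ∧ v2 j w
  have okt : ∀ t, Down t → OK S (vt t) := by
    intro t ht
    have hdn : ∀ j, Down (vt t j) := by
      rintro j w w' hl ⟨h1, h2⟩
      exact ⟨h1.imp (ok1.dn j w w' hl) (ht w w' hl), ok2.dn j w w' hl h2⟩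
    refine ⟨hdn, ?_, ?_, ?_⟩
    · intro j k hjk
      refine ⟨fun w h => ⟨h.1.imp_left ((ok1.rel j k hjk).1 w), (ok2.rel j k hjk).1 w h.2⟩, ?_⟩
      intro x0 x1 x2 x3 l0 l1 l2 g0 g1 g2
      by_contra g3
      have hk : ¬ ∀ x, v2 k x := fun h => g3 ⟨Or.inl (htop k h x3), h x3⟩
      by_cases hc : v2 j x1
      · have h1 : ¬ v1 j x1 := fun h => g1 ⟨Or.inl h, hc⟩
        have h2 : ¬ t x1 := fun h => g1 ⟨Or.inr h, hc⟩
        have h3 : ¬ t x2 := fun h => h2 (ht x1 x2 l1 h)
        have h4 : v1 k x2 := g2.1.resolve_right h3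
        obtain ⟨y0, hy0⟩ := hbot j ⟨x0, g0.2⟩
        have hy1 : lt y0 x1 := by
          rcases lt_tri y0 x1 with h | h | h
          · exact h
          · subst h; exact absurd hy0 h1
          · exact absurd (ok1.dn j _ _ h hy0) h1
        apply hk
        intro x
        apply le12
        rcases lt_tri x x2 with h | h | h
        · exact ok1.dn k _ _ h h4
        · subst h; exact h4
        · exact (ok1.rel j k hjk).2 y0 x1 x2 x hy1 l1 h hy0 h1 h4
      · apply hk
        intro x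
        rcases lt_tri x x2 with h | h | h
        · exact ok2.dn k _ _ h g2.2
        · subst h; exact g2.2
        · exact (ok2.rel j k hjk).2 x0 x1 x2 x l0 l1 h g0.2 hc g2.2
    · rintro j hj w ⟨-, h⟩
      exact ok2.emp j hj w h
    · intro j hj w
      exact ⟨Or.inl (ok1.full j hj w), ok2.full j hj w⟩
  intro h0
  have h1 : Ψ v1 := hb v v1 hv ok1 r1 h0
  have key : ∀ n : ℕ, ∀ t, Down t → (F.filter t).card = n → Ψ (vt t) := by
    intro n
    induction n using Nat.strong_induction_on with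
    | _ n ih =>
      intro t ht hn
      by_cases hne : (F.filter t).Nonempty
      · obtain ⟨q, hq, hq2⟩ := exists_max _ hne
        have hqF := (Finset.mem_filter.1 hq).1
        have hqt := (Finset.mem_filter.1 hq).2
        let tm : List Bool → Prop := fun x => lt x q
        let tp : List Bool → Prop := fun x => lt x q ∨ x = q
        have dm : Down tm := fun w w' hl h => lt_trans _ _ _ hl h
        have dp : Down tp := by
          rintro w w' hl (h | h)
          · exact Or.inl (lt_trans _ _ _ hl h)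
          · subst h; exact Or.inl hl
        have hsub : F.filter tm ⊂ F.filter t := by
          rw [Finset.ssubset_iff_of_subset]
          · exact ⟨q, hq, fun h => lt_irrefl q (Finset.mem_filter.1 h).2⟩
          · intro x hx
            obtain ⟨hx1, hx2⟩ := Finset.mem_filter.1 hx
            exact Finset.mem_filter.2 ⟨hx1, ht x q hx2 hqt⟩
        have i1 : Ψ (vt tm) := ih _ (hn ▸ Finset.card_lt_card hsub) tm dm rfl
        have i2 : Ψ (vt tp) := by
          refine hb _ _ (okt tm dm) (okt tp dp) (fun j => ?_) i1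
          refine ⟨fun w h => ⟨h.1.imp_right Or.inl, h.2⟩, ?_⟩
          intro x0 x1 x2 x3 l0 l1 l2 g0 g1 g2
          exfalso
          have g4 : vt tp j x1 := (okt tp dp).dn j x1 x2 l1 g2
          have g5 : ¬ v1 j x1 := fun h => g1 ⟨Or.inl h, g4.2⟩
          have g6 : ¬ lt x1 q := fun h => g1 ⟨Or.inr h, g4.2⟩
          have g7 : x1 = q := (g4.1.resolve_left g5).resolve_left g6
          subst g7
          rcases g2.1 with h | h | h
          · exact g5 (ok1.dn j _ _ l1 h)
          · exact lt_irrefl _ (lt_trans _ _ _ l1 h)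
          · subst h; exact lt_irrefl _ l1
        refine ha _ _ (okt tp dp) (okt t ht) (fun j w hw => ?_) i2
        have e : tp w ↔ t w := by
          constructor
          · rintro (h | h)
            · exact ht _ _ h hqt
            · subst h; exact hqt
          · intro h
            exact hq2 w (Finset.mem_filter.2 ⟨hw, h⟩)
        show (v1 j w ∨ tp w) ∧ v2 j w ↔ (v1 j w ∨ t w) ∧ v2 j w
        rw [e]
      · refine ha v1 _ ok1 (okt t ht) (fun j w hw => ?_) h1
        have : ¬ t w := fun h => hne ⟨w, Finset.mem_filter.2 ⟨hw, h⟩⟩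
        constructor
        · intro h; exact ⟨Or.inl h, le12 j w h⟩
        · rintro ⟨h | h, -⟩
          · exact h
          · exact absurd h this
  have h2 := key _ (fun _ => True) (fun _ _ _ _ => trivial) rfl
  have e : vt (fun _ => True) = v2 := by
    funext j w
    simp [vt]
  rw [e] at h2
  exact hb v2 v' ok2 hv' r2 h2

theorem fin_support {φ : Fml} (hφ : MonotoneIn Lam φ) (s : Bool) :
    ∃ F : Finset (List Bool), ∀ (c c' : ℕ → Prop) (M M' : Mod), GoodT M.T → GoodT M'.T →
      (∀ p ∈ φ.vars, c p → c' p) → (∀ w, ∀ p ∈ φ.vars, M.cA w p → M'.cA w p) →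
      (∀ w, ∀ p ∈ φ.vars, M.cB w p → M'.cB w p) →
      (∀ w ∈ F, ∀ a, Meas φ.vars a → UpSet a ∨ DnSet a → (M.T w a ↔ M'.T w a)) →
      ev φ (pt s c M) → ev φ (pt s c' M') := by
  classical
  by_contra hcon
  push Not at hcon
  choose c c' M M' hM hM' hc hcA hcB hT h1 h2 using hcon
  let U : Ultrafilter (Finset (List Bool)) := Ultrafilter.of atTop
  have hU : (U : Filter (Finset (List Bool))) ≤ atTop := Ultrafilter.of_le _
  have g1 : ev φ (pt s (limc U c) (Mod.lim U M)) := (pt_los U s φ c M).2 (Eventually.of_forall h1)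
  have g2 : ¬ ev φ (pt s (limc U c') (Mod.lim U M')) := by
    rw [pt_los]
    intro h
    obtain ⟨F, hF⟩ := h.exists
    exact h2 F hF
  have gM : GoodT (Mod.lim U M).T := lim_good U M (Eventually.of_forall hM)
  have gM' : GoodT (Mod.lim U M').T := lim_good U M' (Eventually.of_forall hM')
  have hTT : ∀ a, Meas φ.vars a → UpSet a ∨ DnSet a →
      (fun w => (Mod.lim U M).T w a) = (fun w => (Mod.lim U M').T w a) := by
    intro a ha ha'
    funext w
    have hev : ∀ᶠ F in (U : Filter (Finset (List Bool))), ((M F).T w a ↔ (M' F).T w a) := by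
      apply hU
      filter_upwards [eventually_ge_atTop ({w} : Finset (List Bool))] with F hF
      exact hT F w (hF (Finset.mem_singleton_self w)) a ha ha'
    apply propext
    constructor
    · intro h
      filter_upwards [hev, h] with F k1 k2
      exact k1.1 k2
    · intro h
      filter_upwards [hev, h] with F k1 k2
      exact k1.2 k2
  refine g2 (rmove hφ s gM gM' ?_ ?_ ?_ ?_ ?_ g1)
  · intro p hp h
    filter_upwards [h] with F hF
    exact hc F p hp hF
  · intro w p hp h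
    filter_upwards [h] with F hF
    exact hcA F w p hp hF
  · intro w p hp h
    filter_upwards [h] with F hF
    exact hcB F w p hp hF
  · intro a ha ha'
    rw [hTT a ha (Or.inl ha')]
    exact Rel.refl_of gM' a
  · intro a ha ha'
    rw [hTT a ha (Or.inr ha')]
    exact Rel.refl_of gM' a

theorem lpp_core {φ : Fml} (hφ : MonotoneIn Lam φ) (s : Bool) {c c' : ℕ → Prop} {M N : Mod}
    (hM : GoodT M.T) (hN : GoodT N.T) (hc : ∀ p ∈ φ.vars, c p → c' p)
    (hcA : ∀ w, ∀ p ∈ φ.vars, M.cA w p → N.cA w p)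
    (hcB : ∀ w, ∀ p ∈ φ.vars, M.cB w p → N.cB w p)
    (hup : ∀ a, Meas φ.vars a → UpSet a → ∀ w, M.T w a → N.T w a)
    (hdn : ∀ a, Meas φ.vars a → DnSet a → ∀ w, N.T w a → M.T w a)
    (h0 : ev φ (pt s c M)) : ev φ (pt s c' N) := by
  classical
  obtain ⟨F, hF⟩ := fin_support hφ s
  let X := {a : Set (ℕ → Prop) // Meas φ.vars a ∧ UpSet a}
  let Y := {a : Set (ℕ → Prop) // Meas φ.vars a ∧ DnSet a}
  let SX : X → Set (ℕ → Prop) := fun a => a.1
  let SY : Y → Set (ℕ → Prop) := fun a => a.1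
  have okX : ∀ {K : Mod}, GoodT K.T → OK SX (fun a w => K.T w a.1) := by
    intro K hK
    refine ⟨fun j => hK.down j.1, fun j k h => hK.rel h, fun j h w => ?_, fun j h w => ?_⟩
    · have e : j.1 = ∅ := h
      rw [e]; exact hK.emp w
    · have e : j.1 = univ := h
      rw [e]; exact hK.full w
  have okY : ∀ {K : Mod}, GoodT K.T → OK SY (fun a w => K.T w a.1) := by
    intro K hK
    refine ⟨fun j => hK.down j.1, fun j k h => hK.rel h, fun j h w => ?_, fun j h w => ?_⟩
    · have e : j.1 = ∅ := h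
      rw [e]; exact hK.emp w
    · have e : j.1 = univ := h
      rw [e]; exact hK.full w
  -- existence of models with prescribed data
  have hext : ∀ u g, OK SX u → OK SY g → ∃ T : List Bool → Set (ℕ → Prop) → Prop, GoodT T ∧
      (∀ (a : X) w, T w a.1 ↔ u a w) ∧ (∀ (b : Y) w, T w b.1 ↔ g b w) := by
    intro u g hu hg
    have k1 : ∀ j, Down (Sum.elim u g j) := by
      rintro (j | j)
      · exact hu.dn j
      · exact hg.dn j
    have k2 : ∀ j k, Sum.elim SX SY j ⊆ Sum.elim SX SY k →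
        Rel (Sum.elim u g j) (Sum.elim u g k) := by
      rintro (j | j) (k | k) hjk
      · exact hu.rel j k hjk
      · by_cases he : SX j = ∅
        · exact ⟨fun w h => absurd h (hu.emp j he w), fun _ _ _ _ _ _ _ h => absurd h (hu.emp j he _)⟩
        · obtain ⟨z, hz⟩ := nonempty_iff_ne_empty.2 he
          have h1 : (fun _ => True) ∈ j.1 := j.2.2 z _ (fun _ _ => trivial) hz
          have h2 : (fun _ => True) ∈ k.1 := hjk h1
          have h3 : SY k = univ := by
            rw [eq_univ_iff_forall]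
            intro z
            exact k.2.2 z _ (fun _ _ => trivial) h2
          exact ⟨fun w _ => hg.full k h3 w, fun _ _ _ _ _ _ _ _ _ _ => hg.full k h3 _⟩
      · by_cases he : SY j = ∅
        · exact ⟨fun w h => absurd h (hg.emp j he w), fun _ _ _ _ _ _ _ h => absurd h (hg.emp j he _)⟩
        · obtain ⟨z, hz⟩ := nonempty_iff_ne_empty.2 he
          have h1 : (fun _ => False) ∈ j.1 := j.2.2 _ z (fun _ h => h.elim) hz
          have h2 : (fun _ => False) ∈ k.1 := hjk h1
          have h3 : SX k = univ := by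
            rw [eq_univ_iff_forall]
            intro z
            exact k.2.2 _ z (fun _ h => h.elim) h2
          exact ⟨fun w _ => hu.full k h3 w, fun _ _ _ _ _ _ _ _ _ _ => hu.full k h3 _⟩
      · exact hg.rel j k hjk
    have k3 : ∀ j, Sum.elim SX SY j = ∅ → ∀ w, ¬ Sum.elim u g j w := by
      rintro (j | j) hj w
      · exact hu.emp j hj w
      · exact hg.emp j hj w
    have k4 : ∃ j, Sum.elim SX SY j = univ ∧ ∀ w, Sum.elim u g j w := by
      refine ⟨Sum.inl ⟨univ, meas_univ _, fun _ _ _ _ => trivial⟩, rfl, fun w => ?_⟩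
      exact hu.full _ rfl w
    obtain ⟨T, hT, hT2⟩ := glue (Sum.elim SX SY) (Sum.elim u g) k1 k2 k3 k4
    exact ⟨T, hT, fun a w => hT2 (Sum.inl a) w, fun b w => hT2 (Sum.inr b) w⟩
  let Ψ : (X → List Bool → Prop) → (Y → List Bool → Prop) → Prop := fun u g =>
    ∃ T : List Bool → Set (ℕ → Prop) → Prop, GoodT T ∧
      (∀ (a : X) w, T w a.1 ↔ u a w) ∧ (∀ (b : Y) w, T w b.1 ↔ g b w) ∧
      ev φ (pt s c' ⟨N.cA, N.cB, T⟩)
  have hA : ∀ u u' g g', OK SX u' → OK SY g' → (∀ a, ∀ w ∈ F, (u a w ↔ u' a w)) →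
      (∀ b, ∀ w ∈ F, (g b w ↔ g' b w)) → Ψ u g → Ψ u' g' := by
    rintro u u' g g' hu' hg' h1 h2 ⟨T, hT, t1, t2, t3⟩
    obtain ⟨T', hT', t1', t2'⟩ := hext u' g' hu' hg'
    refine ⟨T', hT', t1', t2', ?_⟩
    refine hF c' c' ⟨N.cA, N.cB, T⟩ ⟨N.cA, N.cB, T'⟩ hT hT' (fun _ _ h => h) (fun _ _ _ h => h)
      (fun _ _ _ h => h) ?_ t3
    rintro w hw a ha (ha' | ha')
    · show T w a ↔ T' w a
      rw [t1 ⟨a, ha, ha'⟩ w, t1' ⟨a, ha, ha'⟩ w]
      exact h1 _ w hw
    · show T w a ↔ T' w a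
      rw [t2 ⟨a, ha, ha'⟩ w, t2' ⟨a, ha, ha'⟩ w]
      exact h2 _ w hw
  have hB : ∀ u u' g g', OK SX u' → OK SY g' → (∀ a, Rel (u a) (u' a)) →
      (∀ b, Rel (g' b) (g b)) → Ψ u g → Ψ u' g' := by
    rintro u u' g g' hu' hg' h1 h2 ⟨T, hT, t1, t2, t3⟩
    obtain ⟨T', hT', t1', t2'⟩ := hext u' g' hu' hg'
    refine ⟨T', hT', t1', t2', ?_⟩
    refine rmove hφ s (c := c') (c' := c') (M := ⟨N.cA, N.cB, T⟩) (M' := ⟨N.cA, N.cB, T'⟩) hT hT'
      (fun _ _ h => h) (fun _ _ _ h => h) (fun _ _ _ h => h) ?_ ?_ t3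
    · intro a ha ha'
      have e1 : (fun w => T w a) = u ⟨a, ha, ha'⟩ := by funext w; exact propext (t1 ⟨a, ha, ha'⟩ w)
      have e2 : (fun w => T' w a) = u' ⟨a, ha, ha'⟩ := by funext w; exact propext (t1' ⟨a, ha, ha'⟩ w)
      show Rel (fun w => T w a) (fun w => T' w a)
      rw [e1, e2]; exact h1 _
    · intro a ha ha'
      have e1 : (fun w => T w a) = g ⟨a, ha, ha'⟩ := by funext w; exact propext (t2 ⟨a, ha, ha'⟩ w)
      have e2 : (fun w => T' w a) = g' ⟨a, ha, ha'⟩ := by funext w; exact propext (t2' ⟨a, ha, ha'⟩ w)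
      show Rel (fun w => T' w a) (fun w => T w a)
      rw [e1, e2]; exact h2 _
  let uM : X → List Bool → Prop := fun a w => M.T w a.1
  let uN : X → List Bool → Prop := fun a w => N.T w a.1
  let gM : Y → List Bool → Prop := fun a w => M.T w a.1
  let gN : Y → List Bool → Prop := fun a w => N.T w a.1
  have oM : OK SX uM := okX hM
  have oN : OK SX uN := okX hN
  have pM : OK SY gM := okY hM
  have pN : OK SY gN := okY hN
  have s0 : Ψ uM gM := by
    refine ⟨M.T, hM, fun _ _ => Iff.rfl, fun _ _ => Iff.rfl, ?_⟩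
    refine rmove hφ s (M := M) (M' := ⟨N.cA, N.cB, M.T⟩) hM hM hc hcA hcB ?_ ?_ h0
    · intro a _ _
      exact Rel.refl_of hM a
    · intro a _ _
      exact Rel.refl_of hM a
  have s1 : Ψ uM gN := by
    by_contra hcon
    refine path SY (fun g => ¬ Ψ uM g) F ?_ ?_ pN pM ?_ hcon s0
    · intro g g' hg hg' h1 h2 h3
      exact h2 (hA uM uM g' g oM hg (fun _ _ _ => Iff.rfl) (fun b w hw => (h1 b w hw).symm) h3)
    · intro g g' hg hg' h1 h2 h3
      exact h2 (hB uM uM g' g oM hg (fun a => oM.rel a a (Subset.refl _)) h1 h3)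
    · intro b w h
      exact hdn b.1 b.2.1 b.2.2 w h
  have s2 : Ψ uN gN := by
    refine path SX (fun u => Ψ u gN) F ?_ ?_ oM oN ?_ s1
    · intro u u' hu hu' h1 h2
      exact hA u u' gN gN hu' pN h1 (fun _ _ _ => Iff.rfl) h2
    · intro u u' hu hu' h1 h2
      exact hB u u' gN gN hu' pN h1 (fun b => pN.rel b b (Subset.refl _)) h2
    · intro a w h
      exact hup a.1 a.2.1 a.2.2 w h
  obtain ⟨T, hT, t1, t2, t3⟩ := s2
  refine rmove hφ s (c := c') (c' := c') (M := ⟨N.cA, N.cB, T⟩) (M' := N) hT hN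
    (fun _ _ h => h) (fun _ _ _ h => h) (fun _ _ _ h => h) ?_ ?_ t3
  · intro a ha ha'
    have e1 : (fun w => T w a) = (fun w => N.T w a) := by funext w; exact propext (t1 ⟨a, ha, ha'⟩ w)
    show Rel (fun w => T w a) (fun w => N.T w a)
    rw [e1]; exact Rel.refl_of hN a
  · intro a ha ha'
    have e1 : (fun w => T w a) = (fun w => N.T w a) := by funext w; exact propext (t2 ⟨a, ha, ha'⟩ w)
    show Rel (fun w => N.T w a) (fun w => T w a)
    rw [e1]; exact Rel.refl_of hN a

theorem not_not_fml (φ : Fml) : φ.not.not = φ := by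
  induction φ <;> simp_all [Fml.not]

theorem z_move {φ : Fml} (hφ : MonotoneIn Lam φ) {v v' : ℕ → Prop}
    (h : ∀ p ∈ φ.vars, v p → v' p) (h0 : ev φ (.z v)) : ev φ (.z v') := by
  classical
  obtain ⟨q, hq, hqv, himp⟩ := hφ
  let u : ℕ → Prop := fun x => if x ∈ φ.vars then v x else ∃ p ∈ φ.vars, q p = x ∧ v' p
  have m1 : ∀ p ∈ φ.vars, (u p ↔ v p) := by
    intro p hp; simp [u, hp]
  have m2 : ∀ p ∈ φ.vars, (u (q p) ↔ v' p) := by
    intro p hp
    simp only [u, hqv p, if_false]
    constructor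
    · rintro ⟨p', _, h2, h3⟩
      rw [hq h2] at h3; exact h3
    · intro h; exact ⟨p, hp, rfl, h⟩
  have h1 : ev φ (.z u) := ((ev_congr φ.vars φ (Finset.Subset.refl _)).1 u v m1).2 h0
  have h2 := mem_imp.1 himp (.z u) trivial h1
  rw [ev_subst] at h2
  refine ((ev_congr φ.vars φ (Finset.Subset.refl _)).1 _ v' (fun p hp => ?_)).1 h2
  show (u p ∨ u (q p)) ↔ v' p
  rw [m1 p hp, m2 p hp]
  exact ⟨fun h' => h'.elim (h p hp) id, Or.inr⟩

theorem positive_data {φ : Fml} (hφ : MonotoneIn Lam φ) (s : Bool) {c c' : ℕ → Prop} {M N : Mod}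
    (hM : GoodT M.T) (hN : GoodT N.T) (hc : ∀ p ∈ φ.vars, c p → c' p)
    (hχ : ∀ χ : Fml, Positive χ → ev χ (.a M) → ev χ (.a N))
    (h0 : ev φ (pt s c M)) : ev φ (pt s c' N) := by
  refine lpp_core hφ s hM hN hc ?_ ?_ ?_ ?_ h0
  · intro w p _
    rw [← ev_cA hM, ← ev_cA hN]
    apply hχ
    intro x
    rw [lits_atw]; simp [Fml.lits]
  · intro w p _
    rw [← ev_cB hM, ← ev_cB hN]
    apply hχ
    intro x
    rw [lits_atw]; simp [Fml.lits, callB, fbe]
  · intro a ha ha' w
    obtain ⟨θ, h1, h2⟩ := (definable φ.vars a ha).2 ha'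
    rw [← h2, ← ev_T hM, ← ev_T hN]
    apply hχ
    intro x
    rw [lits_atw]
    simpa [Fml.lits, ftest] using h1 x
  · intro a ha ha' w
    obtain ⟨θ, h1, h2⟩ := (definable φ.vars aᶜ (fun v v' hv => not_congr (ha v v' hv))).2
      (fun v v' hv h3 h4 => h3 (ha' v v' hv h4))
    have e : a = {v | ¬ ev θ (.z v)} := by
      rw [← compl_compl a, ← h2]; rfl
    intro h3
    by_contra h4
    rw [e] at h3 h4
    rw [← ev_dT hM] at h4
    have h5 := hχ _ (by
      intro x
      rw [lits_atw]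
      simpa [Fml.lits, fdtest] using h1 x) h4
    rw [ev_dT hN] at h5
    exact h5 h3

theorem lam_lpp : LPP Lam := by
  classical
  intro φ hφ
  by_contra hno
  push Not at hno
  obtain ⟨y, hy, hy2⟩ := compact ({χ | Positive χ ∧ imp φ χ ∈ Lam} ∪ {φ.not}) (by
    intro Δ hΔ
    let l := (Δ.filter fun χ => Positive χ ∧ imp φ χ ∈ Lam).toList
    have hl : ∀ χ ∈ l, Positive χ ∧ imp φ χ ∈ Lam := by
      intro χ hχ
      exact (Finset.mem_filter.1 (Finset.mem_toList.1 hχ)).2
    have h1 : imp φ (conj l) ∈ Lam := by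
      rw [mem_imp]
      intro x hx hφ
      rw [ev_conj]
      intro χ hχ
      exact mem_imp.1 (hl χ hχ).2 x hx hφ
    have h2 := hno (conj l) (positive_conj l fun χ hχ => (hl χ hχ).1) h1
    rw [mem_imp] at h2
    push Not at h2
    obtain ⟨x, hx, h3, h4⟩ := h2
    refine ⟨x, hx, fun δ hδ => ?_⟩
    rcases hΔ δ hδ with h5 | h5
    · exact (ev_conj l x).1 h3 δ (Finset.mem_toList.2 (Finset.mem_filter.2 ⟨hδ, h5⟩))
    · rw [h5]; exact (ev_not φ x).2 h4)
  have hyφ : ¬ ev φ y := (ev_not φ y).1 (hy2 _ (Or.inr rfl))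
  obtain ⟨x, hx, hx2⟩ := compact ({δ | Positive δ.not ∧ ev δ y} ∪ {φ}) (by
    intro Δ hΔ
    let l := (Δ.filter fun δ => Positive δ.not ∧ ev δ y).toList
    have hl : ∀ δ ∈ l, Positive δ.not ∧ ev δ y := by
      intro χ hχ
      exact (Finset.mem_filter.1 (Finset.mem_toList.1 hχ)).2
    by_contra hcon
    push Not at hcon
    have h1 : imp φ (disj (l.map Fml.not)) ∈ Lam := by
      rw [mem_imp]
      intro x hx hφ
      rw [ev_disj]
      obtain ⟨δ, hδ, hδ2⟩ := hcon x hx
      rcases hΔ δ hδ with h5 | h5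
      · exact ⟨δ.not, List.mem_map.2 ⟨δ, Finset.mem_toList.2 (Finset.mem_filter.2 ⟨hδ, h5⟩), rfl⟩,
          (ev_not δ x).2 hδ2⟩
      · rw [h5] at hδ2; exact absurd hφ hδ2
    have h2 := hy2 (disj (l.map Fml.not)) (Or.inl ⟨positive_disj _ (by
      intro χ hχ
      obtain ⟨δ, h3, h4⟩ := List.mem_map.1 hχ
      rw [← h4]; exact (hl δ h3).1), h1⟩)
    rw [ev_disj] at h2
    obtain ⟨χ, hχ, hχ2⟩ := h2
    obtain ⟨δ, h3, h4⟩ := List.mem_map.1 hχ
    rw [← h4, ev_not] at hχ2
    exact hχ2 (hl δ h3).2)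
  have hxφ : ev φ x := hx2 _ (Or.inr rfl)
  have hxy : ∀ χ : Fml, Positive χ → ev χ x → ev χ y := by
    intro χ hχ h
    by_contra h'
    have := hx2 χ.not (Or.inl ⟨by rw [not_not_fml]; exact hχ, (ev_not χ y).2 h'⟩)
    exact (ev_not χ x).1 this h
  have pfal : Positive fal := by intro p; simp [fal, Fml.lits]
  have pfbe : Positive fbe := by intro p; simp [fbe, Fml.lits]
  have pdb : Positive (dia bot) := by intro p; simp [Fml.lits]
  have ppos : ∀ p, Positive (pos p) := by intro p x; simp [Fml.lits]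
  apply hyφ
  cases x with
  | z v =>
    have h1 : ev (dia bot) (.z v) := trivial
    have h2 := hxy _ pdb h1
    cases y with
    | z v' => exact z_move hφ (fun p _ => hxy (pos p) (ppos p)) hxφ
    | a N =>
      rcases h2 with h2 | h2 | h2
      · exact h2.elim
      · exact h2.elim
      · exact absurd h2 (GoodT.emp hy [])
    | b c N => exact h2.elim
  | a M =>
    have h2 := hxy _ pfal (fal_a hx)
    cases y with
    | z v => exact absurd h2 (fal_z v)
    | a N =>
      exact positive_data hφ false (c := M.cA []) (c' := N.cA []) hx hy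
        (fun p _ => hxy (pos p) (ppos p)) hxy hxφ
    | b c N => exact absurd h2 (fal_b hy)
  | b c M =>
    have h2 := hxy _ pfbe (fbe_b hx)
    cases y with
    | z v => exact absurd h2 (fbe_z v)
    | a N => exact absurd h2 (fbe_a hy)
    | b c' N =>
      exact positive_data hφ true (c := c) (c' := c') hx hy
        (fun p _ => hxy (pos p) (ppos p)) (fun χ hχ => hxy (dia χ) hχ) hxφ

/-- There is a monotone modal logic that has the Craig interpolation property and the Lyndon
positivity property, but not the Lyndon interpolation property. -/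
theorem result : ∃ Λ : Set Fml, IsMonotoneLogic Λ ∧ CIP Λ ∧ LPP Λ ∧ ¬ LIP Λ :=
  ⟨Lam, lam_monotone, lam_cip, lam_lpp, lam_not_lip⟩

end Pool.Agent.Results.MP_4e66c5_lc.CraigPositivityNotLyndon
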